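import Mathlib
import Pool.Agent.Helper24.Coh.Genus

/-!
# Project CS (MP_b96d2b_ag): `U(2, K, n)`, `B(2, K, n)` and `G(α; 2, K, n)`

Definitions and elementary lemmas on divisors, on top of `Pool.Agent.Helper24.Coh`.
-/

open Module Pool.Agent.Helper11 Pool.Agent.Helper24.Coh

namespace Pool.Agent.Helper33.CS

universe u

variable {k F : Type u} [Field k] [Field F] [Algebra k F]

/-- A bundle `E` of rank two and degree `d` is stable: `deg L < d / 2` for every line subbundle
`L`. -/
def IsStable (E : Bundle k F) (d : ℤ) : Prop := ∀ s : Fin 2 → F, s ≠ 0 → 2 * E.lineDeg s < d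

/-- `B(2, K, n)` is not empty, `K = O(W)`: there is a stable bundle of rank two with determinant
`K` which has at least `n` independent sections. -/
def BNonempty (W : CurvePt k F →₀ ℤ) (n : ℕ) : Prop :=
  ∃ (E : Bundle k F) (H : Submodule k (Fin 2 → F)), E.DetIso W ∧ IsStable E (deg W) ∧
    E.IsSections H ∧ finrank k H = n

/-- `U(2, K, n)` is not empty, `K = O(W)`, `n ≥ 2`: there is a coherent system `(E, H)`, `E`
stable, which is in `G(α; 2, K, n)` for all large `α`. -/
def UNonempty (W : CurvePt k F →₀ ℤ) (n : ℕ) : Prop :=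
  ∃ (E : Bundle k F) (H : Submodule k (Fin 2 → F)), IsStable E (deg W) ∧
    ∃ α₀ : ℝ, ∀ α : ℝ, α₀ < α → InG W n α E H

/-- the point `P` as a divisor -/
noncomputable abbrev pt (P : CurvePt k F) : CurvePt k F →₀ ℤ := Finsupp.single P 1

lemma pt_apply_self (P : CurvePt k F) : pt P P = 1 := Finsupp.single_eq_same

lemma pt_apply_ne {P Q : CurvePt k F} (h : P ≠ Q) : pt P Q = 0 := Finsupp.single_eq_of_ne' h

lemma deg_pt (P : CurvePt k F) : deg (pt P) = 1 := deg_single P 1

lemma pt_nonneg (P Q : CurvePt k F) : 0 ≤ pt P Q := by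
  by_cases h : P = Q
  · subst h
    rw [pt_apply_self]
    norm_num
  · rw [pt_apply_ne h]

lemma pt_le_one (P Q : CurvePt k F) : pt P Q ≤ 1 := by
  by_cases h : P = Q
  · subst h
    rw [pt_apply_self]
  · rw [pt_apply_ne h]
    norm_num

/-- an effective divisor is at least a point where it is positive -/
lemma pt_le {D : CurvePt k F →₀ ℤ} (hD : ∀ Q, 0 ≤ D Q) {P : CurvePt k F} (hP : 1 ≤ D P)
    (Q : CurvePt k F) : pt P Q ≤ D Q := by
  by_cases h : P = Q
  · subst h
    rw [pt_apply_self]
    exact hP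
  · rw [pt_apply_ne h]
    exact hD Q

lemma exists_pos {D : CurvePt k F →₀ ℤ} (hD : ∀ Q, 0 ≤ D Q) (h : 1 ≤ deg D) :
    ∃ P, 1 ≤ D P := by
  by_contra hcon
  push Not at hcon
  have h1 : D = 0 := by
    ext P
    have h2 := hD P
    have h3 := hcon P
    rw [Finsupp.zero_apply]
    omega
  rw [h1, deg_zero] at h
  omega

/-- an effective divisor of degree one is a point -/
lemma eq_pt_of_deg_one {D : CurvePt k F →₀ ℤ} (hD : ∀ Q, 0 ≤ D Q) (h : deg D = 1) :
    ∃ P, D = pt P := by
  obtain ⟨P, hP⟩ := exists_pos hD h.ge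
  exact ⟨P, (eq_of_le_of_deg_le (pt_le hD hP) (by rw [h, deg_pt])).symm⟩

variable [IsAlgClosed k] [CharZero k]

/-- the divisor of a rational function -/
noncomputable def dv (hF : IsCurveField k F) (f : F) : CurvePt k F →₀ ℤ :=
  Finsupp.ofSupportFinite (fun P => P.ord f) (finite_support_ord hF f)

lemma dv_apply (hF : IsCurveField k F) (f : F) (P : CurvePt k F) : dv hF f P = P.ord f := rfl

lemma deg_dv (hF : IsCurveField k F) (f : F) : deg (dv hF f) = 0 := by
  rw [deg_eq_finsum]
  exact sum_ord_eq_zero hF f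

lemma ell_add_dv (hF : IsCurveField k F) {f : F} (hf : f ≠ 0) (D : CurvePt k F →₀ ℤ) :
    ell (D + dv hF f) = ell D := by
  apply ell_equiv (z := f⁻¹) (inv_ne_zero hf)
  intro P
  rw [Finsupp.add_apply, dv_apply, P.ord_inv]
  ring

/-- a nonzero section gives an effective divisor -/
lemma exists_effective (hF : IsCurveField k F) {D : CurvePt k F →₀ ℤ} (h : 1 ≤ ell D) :
    ∃ f : F, f ≠ 0 ∧ ∀ P, 0 ≤ (D + dv hF f) P := by
  have hne : rrSpace D ≠ ⊥ := by
    intro h1
    unfold ell at h
    rw [h1, finrank_bot] at h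
    omega
  obtain ⟨f, hf, hf0⟩ := Submodule.exists_mem_ne_zero_of_ne_bot hne
  refine ⟨f, hf0, fun P => ?_⟩
  rw [Finsupp.add_apply, dv_apply]
  rcases hf P with h1 | h1
  · exact absurd h1 hf0
  · omega

lemma one_le_ell_of_mem (hF : IsCurveField k F) {D : CurvePt k F →₀ ℤ} {f : F} (hf : f ∈ rrSpace D)
    (hf0 : f ≠ 0) : 1 ≤ ell D := by
  have hfd := finiteDimensional_rrSpace hF D
  have hnt : Nontrivial (rrSpace D) := by
    refine ⟨⟨⟨f, hf⟩, 0, ?_⟩⟩
    intro h
    exact hf0 (congrArg Subtype.val h)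
  exact finrank_pos

lemma one_le_ell_of_nonneg (hF : IsCurveField k F) {D : CurvePt k F →₀ ℤ} (h : ∀ P, 0 ≤ D P) :
    1 ≤ ell D := by
  apply one_le_ell_of_mem hF (f := 1) _ one_ne_zero
  intro P
  right
  rw [P.ord_one]
  have := h P
  omega

lemma deg_nonneg_of_ell (hF : IsCurveField k F) {D : CurvePt k F →₀ ℤ} (h : 1 ≤ ell D) :
    0 ≤ deg D := by
  obtain ⟨f, hf0, hf⟩ := exists_effective hF h
  have h1 : deg (0 : CurvePt k F →₀ ℤ) ≤ deg (D + dv hF f) := deg_mono hf
  rw [deg_zero, deg_add, deg_dv] at h1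
  omega

lemma ell_le_sub_pt (hF : IsCurveField k F) (D : CurvePt k F →₀ ℤ) (P : CurvePt k F) :
    ell D ≤ ell (D - pt P) + 1 := by
  have h := ell_add_point_le hF (D - pt P) P
  rwa [sub_add_cancel] at h

lemma ell_sub_pt_le (hF : IsCurveField k F) (D : CurvePt k F →₀ ℤ) (P : CurvePt k F) :
    ell (D - pt P) ≤ ell D := by
  apply ell_mono hF
  intro Q
  rw [Finsupp.sub_apply]
  have := pt_nonneg P Q
  omega

/-- the base points of a divisor with a section are finitely many -/
lemma finite_base (hF : IsCurveField k F) {D : CurvePt k F →₀ ℤ} (h : 1 ≤ ell D) :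
    {P | ell D ≤ ell (D - pt P)}.Finite := by
  obtain ⟨f, hf0, hf⟩ := exists_effective hF h
  refine ((D + dv hF f).support.finite_toSet).subset ?_
  intro P hP
  rw [Finset.mem_coe, Finsupp.mem_support_iff]
  have hfd := finiteDimensional_rrSpace hF D
  have hle : rrSpace (D - pt P) ≤ rrSpace D := by
    apply rrSpace_mono
    intro Q
    rw [Finsupp.sub_apply]
    have := pt_nonneg P Q
    omega
  have heq : rrSpace (D - pt P) = rrSpace D :=
    Submodule.eq_of_le_of_finrank_le hle hP
  have hfD : f ∈ rrSpace D := by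
    intro Q
    right
    have h1 := hf Q
    rw [Finsupp.add_apply, dv_apply] at h1
    omega
  rw [← heq] at hfD
  have h2 := hfD P
  rw [Finsupp.sub_apply, pt_apply_self] at h2
  rw [Finsupp.add_apply, dv_apply]
  rcases h2 with h2 | h2
  · exact absurd h2 hf0
  · omega

/-- there are infinitely many points -/
theorem infinite_pt (hF : IsCurveField k F) : Infinite (CurvePt k F) := by
  obtain ⟨x, hx⟩ := exists_transcendental hF
  have hk : Infinite k := IsAlgClosed.instInfinite
  have h1 : ∀ c : k, ∃ P : CurvePt k F, 0 < P.ord (x - algebraMap k F c) := by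
    intro c
    by_contra hcon
    push Not at hcon
    have hne : x - algebraMap k F c ≠ 0 := by
      intro h0
      exact hx ⟨c, (sub_eq_zero.mp h0).symm⟩
    obtain ⟨d, hd⟩ := mem_range_of_regular hF (f := (x - algebraMap k F c)⁻¹) (fun P => by
      right
      rw [P.ord_inv]
      have := hcon P
      omega)
    apply hx
    have hd0 : algebraMap k F d ≠ 0 := by
      rw [hd]
      exact inv_ne_zero hne
    refine ⟨d⁻¹ + c, ?_⟩
    rw [map_add, map_inv₀, hd, inv_inv]
    ring
  choose p hp using h1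
  refine Infinite.of_injective p ?_
  intro c c' hcc
  by_contra hne
  have h2 : MemO (-1) (p c) (x - algebraMap k F c) := Or.inr (by have := hp c; omega)
  have h3 : MemO (-1) (p c) (x - algebraMap k F c') :=
    Or.inr (by have := hp c'; rw [← hcc] at this; omega)
  have h4 := memO_sub h3 h2
  have h5 : x - algebraMap k F c' - (x - algebraMap k F c) = algebraMap k F (c - c') := by
    rw [map_sub]
    ring
  rw [h5] at h4
  rcases h4 with h4 | h4
  · rw [map_eq_zero] at h4
    exact hne (sub_eq_zero.mp h4)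
  · rw [CurvePt.ord_algebraMap] at h4
    omega

lemma exists_pt_notMem (hF : IsCurveField k F) {S : Set (CurvePt k F)} (hS : S.Finite) :
    ∃ P, P ∉ S := by
  have := infinite_pt hF
  exact hS.exists_notMem

end Pool.Agent.Helper33.CS
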