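import Mathlib
import Pool.Agent.Helper33.CS.Df

/-!
# Project CS: Clifford's theorem, strict form

`cliff`: on a curve without divisors of degree two with two sections, `l(D) + l(K - D) ≤ g` if
`l(D), l(K - D) ≥ 1` and `deg D, deg (K - D) ≥ 1`.
`ell_le_of_double`: `l(K - 2N) ≤ c` if `deg N = g - 1 - c`, `c ≥ 1`, `l(N) ≥ 2`.
-/

open Module Pool.Agent.Helper11 Pool.Agent.Helper24.Coh

namespace Pool.Agent.Helper33.CS

universe u

variable {k F : Type u} [Field k] [Field F] [Algebra k F] [IsAlgClosed k] [CharZero k]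

/-- the curve is not hyperelliptic: no divisor of degree two has two sections -/
def NonHyp (k F : Type u) [Field k] [Field F] [Algebra k F] : Prop :=
  ∀ D : CurvePt k F →₀ ℤ, deg D = 2 → ell D ≤ 1

lemma ell_inf_sup (hF : IsCurveField k F) (A B : CurvePt k F →₀ ℤ) :
    ell A + ell B ≤ ell (A ⊓ B) + ell (A ⊔ B) := by
  have hA := finiteDimensional_rrSpace hF A
  have hB := finiteDimensional_rrSpace hF B
  have hAB := finiteDimensional_rrSpace hF (A ⊓ B)
  have hAB' := finiteDimensional_rrSpace hF (A ⊔ B)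
  have h1 : rrSpace A ⊓ rrSpace B ≤ rrSpace (A ⊓ B) := by
    rintro f ⟨hf, hf'⟩ P
    rw [Finsupp.inf_apply]
    rcases le_total (A P) (B P) with h | h
    · rw [inf_eq_left.mpr h]
      exact hf P
    · rw [inf_eq_right.mpr h]
      exact hf' P
  have h2 : rrSpace A ⊔ rrSpace B ≤ rrSpace (A ⊔ B) :=
    sup_le (rrSpace_mono fun P => by rw [Finsupp.sup_apply]; exact le_sup_left)
      (rrSpace_mono fun P => by rw [Finsupp.sup_apply]; exact le_sup_right)
  have h3 := Submodule.finrank_sup_add_finrank_inf_eq (rrSpace A) (rrSpace B)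
  have h4 := Submodule.finrank_mono h1
  have h5 := Submodule.finrank_mono h2
  unfold ell
  omega

lemma NonHyp.ell_le_one (hF : IsCurveField k F) (h : NonHyp k F) {D : CurvePt k F →₀ ℤ}
    (hD : deg D ≤ 2) : ell D ≤ 1 := by
  obtain ⟨P⟩ := exists_pt hF
  obtain ⟨e, he⟩ : ∃ e : ℕ, (e : ℤ) = 2 - deg D := ⟨(2 - deg D).toNat, by omega⟩
  have h1 := h (D + Finsupp.single P (e : ℤ)) (by rw [deg_add, deg_single]; omega)
  refine le_trans (ell_mono hF ?_) h1
  classical
  intro Q
  rw [Finsupp.add_apply, Finsupp.single_apply]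
  split_ifs <;> omega

/-- Clifford's theorem for a curve which is not hyperelliptic -/
theorem cliff (hF : IsCurveField k F) (hnh : NonHyp k F) {g : ℕ} {W : CurvePt k F →₀ ℤ}
    (hW : IsGenusCanonical g W) (D : CurvePt k F →₀ ℤ) (h1 : 1 ≤ ell D) (h2 : 1 ≤ ell (W - D))
    (h3 : 1 ≤ deg D) (h4 : 1 ≤ deg (W - D)) : ell D + ell (W - D) ≤ g := by
  obtain ⟨n, hn⟩ : ∃ n : ℕ, deg D = n := ⟨(deg D).toNat, by omega⟩
  induction n using Nat.strong_induction_on generalizing D with
  | _ n ih =>
    have hRR := hW D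
    rcases (by omega : ell D = 1 ∨ ell D = 2 ∨ 3 ≤ ell D) with hl | hl | hl
    · -- l(D) = 1
      obtain ⟨f, hf0, hf⟩ := exists_effective hF h1
      obtain ⟨p, hp⟩ := exists_pos hf (by rw [deg_add, deg_dv]; omega)
      have h5 := hW (pt p)
      have h6 : ell (pt p) ≤ 1 := hnh.ell_le_one hF (by rw [deg_pt]; norm_num)
      have h7 : ell (W - D) ≤ ell (W - pt p) := by
        have h8 : ell (W - (D + dv hF f)) = ell (W - D) := by
          have h9 : W - D = (W - (D + dv hF f)) + dv hF f := by abel
          rw [h9, ell_add_dv hF hf0]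
        rw [← h8]
        apply ell_mono hF
        intro Q
        rw [Finsupp.sub_apply, Finsupp.sub_apply]
        have := pt_le hf hp Q
        omega
      rw [deg_pt] at h5
      omega
    · -- l(D) = 2
      have h5 : 3 ≤ deg D := by
        by_contra hcon
        have := hnh.ell_le_one hF (D := D) (by omega)
        omega
      omega
    · -- l(D) ≥ 3
      obtain ⟨e, he0, he⟩ := exists_effective hF h2
      obtain ⟨p, hp⟩ := exists_pos he (by rw [deg_add, deg_dv]; omega)
      obtain ⟨q, hq⟩ := exists_pt_notMem hF ((W - D + dv hF e).support.finite_toSet)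
      rw [Finset.mem_coe, Finsupp.notMem_support_iff] at hq
      have hpq : p ≠ q := by
        rintro rfl
        rw [hq] at hp
        norm_num at hp
      have h5 : 1 ≤ ell (D - pt p - pt q) := by
        have h6 := ell_le_sub_pt hF D p
        have h7 := ell_le_sub_pt hF (D - pt p) q
        omega
      obtain ⟨f, hf0, hf⟩ := exists_effective hF h5
      have hfP : ∀ Q, pt p Q + pt q Q ≤ (D + dv hF f) Q := by
        intro Q
        have := hf Q
        rw [Finsupp.add_apply, Finsupp.sub_apply, Finsupp.sub_apply] at this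
        rw [Finsupp.add_apply]
        omega
      set D0 : CurvePt k F →₀ ℤ := D + dv hF f with hD0
      set E0 : CurvePt k F →₀ ℤ := W - D + dv hF e with hE0
      have hD0' : ∀ Q, 0 ≤ D0 Q := by
        intro Q
        have := hfP Q
        have := pt_nonneg p Q
        have := pt_nonneg q Q
        omega
      have hinf : ∀ Q, (D0 ⊓ E0) Q ≤ D0 Q ∧ (D0 ⊓ E0) Q ≤ E0 Q ∧ 0 ≤ (D0 ⊓ E0) Q := by
        intro Q
        rw [Finsupp.inf_apply]
        exact ⟨inf_le_left, inf_le_right, le_inf (hD0' Q) (he Q)⟩
      have hsup : ∀ Q, D0 Q ≤ (D0 ⊔ E0) Q := by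
        intro Q
        rw [Finsupp.sup_apply]
        exact le_sup_left
      have hsum : W - (D0 ⊓ E0) + dv hF (f * e) = D0 ⊔ E0 := by
        ext Q
        rw [Finsupp.add_apply, Finsupp.sub_apply, Finsupp.sup_apply, Finsupp.inf_apply, dv_apply,
          Q.ord_mul hf0 he0]
        have h6 : D0 Q = D Q + Q.ord f := rfl
        have h7 : E0 Q = W Q - D Q + Q.ord e := rfl
        rcases le_total (D0 Q) (E0 Q) with h | h
        · rw [inf_eq_left.mpr h, sup_eq_right.mpr h]
          omega
        · rw [inf_eq_right.mpr h, sup_eq_left.mpr h]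
          omega
      have hellsup : ell (D0 ⊔ E0) = ell (W - (D0 ⊓ E0)) := by
        rw [← hsum, ell_add_dv hF (mul_ne_zero hf0 he0)]
      have h8 := ell_inf_sup hF D0 E0
      have h9 : ell D0 = ell D := ell_add_dv hF hf0 D
      have h10 : ell E0 = ell (W - D) := ell_add_dv hF he0 (W - D)
      have hdegD0 : deg D0 = deg D := by rw [hD0, deg_add, deg_dv, add_zero]
      have hp1 : 1 ≤ (D0 ⊓ E0) p := by
        rw [Finsupp.inf_apply]
        apply le_inf
        · have h11 := hfP p
          rw [pt_apply_self] at h11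
          have := pt_nonneg q p
          omega
        · exact hp
      have hdeg1 : 1 ≤ deg (D0 ⊓ E0) := by
        have := deg_mono (pt_le (fun Q => (hinf Q).2.2) hp1)
        rwa [deg_pt] at this
      have hdeg2 : deg (D0 ⊓ E0) < deg D := by
        have h12 : ∀ Q, (D0 ⊓ E0) Q ≤ (D0 - pt q) Q := by
          intro Q
          rw [Finsupp.sub_apply]
          by_cases hQ : q = Q
          · subst hQ
            rw [pt_apply_self]
            have h13 := (hinf q).2.1
            have h14 := hfP q
            rw [pt_apply_self, pt_apply_ne hpq] at h14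
            omega
          · rw [pt_apply_ne hQ]
            have := (hinf Q).1
            omega
        have h15 := deg_mono h12
        rw [deg_sub, deg_pt, hdegD0] at h15
        omega
      have hdeg3 : 1 ≤ deg (W - (D0 ⊓ E0)) := by
        have h16 : deg (W - (D0 ⊓ E0)) = deg (D0 ⊔ E0) := by
          rw [← hsum, deg_add, deg_dv, add_zero]
        have h17 := deg_mono hsup
        omega
      obtain ⟨n', hn'⟩ : ∃ n' : ℕ, deg (D0 ⊓ E0) = n' := ⟨(deg (D0 ⊓ E0)).toNat, by omega⟩
      have h18 := ih n' (by omega) (D0 ⊓ E0) (one_le_ell_of_nonneg hF (fun Q => (hinf Q).2.2))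
        (by
          rw [← hellsup]
          apply one_le_ell_of_nonneg hF
          intro Q
          have := hsup Q
          have := hD0' Q
          omega) hdeg1 hdeg3 hn'
      omega

/-- `l(K - 2N) ≤ c` for `deg N = g - 1 - c`, `c ≥ 1`, `l(N) ≥ 2` -/
theorem ell_le_of_double (hF : IsCurveField k F) (hnh : NonHyp k F) {g : ℕ}
    {W : CurvePt k F →₀ ℤ} (hW : IsGenusCanonical g W) {N : CurvePt k F →₀ ℤ} {c : ℕ} (hc : 1 ≤ c)
    (hN : deg N = g - 1 - c) (hl : 2 ≤ ell N) : ell (W - N - N) ≤ c := by
  have hWd := deg_canonical hW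
  have hN1 : 1 ≤ deg N := by
    by_contra hcon
    have := hnh.ell_le_one hF (D := N) (by omega)
    omega
  rcases Nat.eq_zero_or_pos (ell (W - N - N)) with h0 | h0
  · omega
  · obtain ⟨f, hf0, hf⟩ := exists_effective hF (D := N) (by omega)
    have h2 : 1 ≤ ell (W - (W - N - N)) := by
      have h3 : W - (W - N - N) = N + N := by abel
      rw [h3, ← ell_add_dv hF (mul_ne_zero hf0 hf0)]
      apply one_le_ell_of_nonneg hF
      intro P
      have := hf P
      rw [Finsupp.add_apply, dv_apply] at this
      rw [Finsupp.add_apply, Finsupp.add_apply, dv_apply, P.ord_mul hf0 hf0]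
      omega
    have h4 := cliff hF hnh hW (W - N - N) h0 h2
      (by rw [deg_sub, deg_sub]; omega) (by rw [deg_sub, deg_sub, deg_sub]; omega)
    have h5 := hW (W - N - N)
    rw [deg_sub, deg_sub] at h5
    omega

end Pool.Agent.Helper33.CS
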