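import Mathlib
import Pool.Agent.Helper33.CS.Cliff

/-!
# Project CS: choice of the line bundle `M`

`exists_minimal`: a divisor of minimal degree with at least `m` sections.
`exists_generic`: general effective divisors impose independent conditions on two systems.
`exists_good`: from a divisor `N`, `deg N ≤ g - 1`, with `m` sections one gets `M` of degree
`g - 1`, `l(M) = m`, such that `f L(K - M)` is not contained in `L(M)` for any rational `f ≠ 0`.
-/

open Module Pool.Agent.Helper11 Pool.Agent.Helper24.Coh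

namespace Pool.Agent.Helper33.CS

universe u

variable {k F : Type u} [Field k] [Field F] [Algebra k F] [IsAlgClosed k] [CharZero k]

lemma exists_minimal (hF : IsCurveField k F) {N : CurvePt k F →₀ ℤ} {m : ℕ} (hm : 1 ≤ m)
    (hN : m ≤ ell N) : ∃ N0 : CurvePt k F →₀ ℤ, m ≤ ell N0 ∧
      ∀ N' : CurvePt k F →₀ ℤ, m ≤ ell N' → deg N0 ≤ deg N' := by
  classical
  have hex : ∃ d : ℕ, ∃ N' : CurvePt k F →₀ ℤ, m ≤ ell N' ∧ deg N' = d := by
    refine ⟨(deg N).toNat, N, hN, ?_⟩
    have := deg_nonneg_of_ell hF (D := N) (by omega)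
    omega
  obtain ⟨N0, h1, h2⟩ := Nat.find_spec hex
  refine ⟨N0, h1, ?_⟩
  intro N' hN'
  have h3 := deg_nonneg_of_ell hF (D := N') (by omega)
  have h4 : Nat.find hex ≤ (deg N').toNat := Nat.find_min' hex ⟨N', hN', by omega⟩
  omega

lemma exists_generic (hF : IsCurveField k F) (A B : CurvePt k F →₀ ℤ) (c : ℕ) :
    ∃ D : CurvePt k F →₀ ℤ, (∀ P, 0 ≤ D P) ∧ deg D = c ∧ ell (A - D) ≤ ell A - c ∧
      ell (B - D) ≤ ell B - c := by
  induction c with
  | zero =>
    refine ⟨0, fun P => le_rfl, by rw [deg_zero]; rfl, ?_, ?_⟩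
    · rw [sub_zero]
      exact le_rfl
    · rw [sub_zero]
      exact le_rfl
  | succ c ih =>
    obtain ⟨D, hD0, hD, hA, hB⟩ := ih
    have key : ∀ X : CurvePt k F →₀ ℤ, ∃ S : Set (CurvePt k F), S.Finite ∧
        ∀ P, P ∉ S → ell (X - pt P) ≤ ell X - 1 := by
      intro X
      rcases Nat.eq_zero_or_pos (ell X) with h0 | h0
      · refine ⟨∅, Set.finite_empty, fun P _ => ?_⟩
        have := ell_sub_pt_le hF X P
        omega
      · refine ⟨_, finite_base hF h0, fun P hP => ?_⟩
        rw [Set.mem_ofPred_eq, not_le] at hP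
        omega
    obtain ⟨S1, hS1, h1⟩ := key (A - D)
    obtain ⟨S2, hS2, h2⟩ := key (B - D)
    obtain ⟨P, hP⟩ := exists_pt_notMem hF (hS1.union hS2)
    rw [Set.mem_union, not_or] at hP
    have h3 := h1 P hP.1
    have h4 := h2 P hP.2
    refine ⟨D + pt P, ?_, ?_, ?_, ?_⟩
    · intro Q
      rw [Finsupp.add_apply]
      have := hD0 Q
      have := pt_nonneg P Q
      omega
    · rw [deg_add, deg_pt, hD]
      push_cast
      ring
    · have h5 : A - (D + pt P) = A - D - pt P := by abel
      rw [h5]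
      omega
    · have h5 : B - (D + pt P) = B - D - pt P := by abel
      rw [h5]
      omega

theorem exists_good (hF : IsCurveField k F) (hnh : NonHyp k F) {g : ℕ} {W : CurvePt k F →₀ ℤ}
    (hW : IsGenusCanonical g W) {m : ℕ} (hm : 2 ≤ m) {N : CurvePt k F →₀ ℤ}
    (hN : deg N ≤ g - 1) (hl : m ≤ ell N) (hθ : deg N = g - 1 → ell (W - N - N) = 0) :
    ∃ M : CurvePt k F →₀ ℤ, deg M = g - 1 ∧ ell M = m ∧ ell (W - M) = m ∧
      ∀ f : F, f ≠ 0 → ∃ v ∈ rrSpace (W - M), f * v ∉ rrSpace M := by
  have hWd := deg_canonical hW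
  -- a divisor of minimal degree
  obtain ⟨N0, hl0, hdeg, hθ0, hmin⟩ : ∃ N0 : CurvePt k F →₀ ℤ, m ≤ ell N0 ∧ deg N0 ≤ deg N ∧
      (deg N0 = g - 1 → ell (W - N0 - N0) = 0) ∧ ∀ P, ell (N0 - pt P) < m := by
    obtain ⟨N0, hl0, hmin⟩ := exists_minimal hF (by omega) hl
    have key : ∀ N' : CurvePt k F →₀ ℤ, deg N' = deg N0 → ∀ P, ell (N' - pt P) < m := by
      intro N' hN' P
      by_contra hcon
      push Not at hcon
      have h1 := hmin _ hcon
      rw [deg_sub, deg_pt] at h1
      omega
    rcases (hmin N hl).lt_or_eq with h | h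
    · exact ⟨N0, hl0, h.le, fun h1 => by omega, key N0 rfl⟩
    · exact ⟨N, hl, le_rfl, hθ, key N h.symm⟩
  obtain ⟨c, hc⟩ : ∃ c : ℕ, deg N0 = g - 1 - c := ⟨(g - 1 - deg N0).toNat, by omega⟩
  obtain ⟨P0⟩ := exists_pt hF
  have hell : ell N0 = m := by
    have h1 := ell_le_sub_pt hF N0 P0
    have h2 := hmin P0
    omega
  have hX : ell (W - N0 - N0) ≤ c := by
    rcases Nat.eq_zero_or_pos c with h0 | h0
    · subst h0
      rw [hθ0 (by push_cast at hc; omega)]
    · exact ell_le_of_double hF hnh hW h0 hc (by omega)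
  have hK := hW N0
  obtain ⟨D, hD0, hD, hA, hB⟩ := exists_generic hF (W - N0) (W - N0 - N0) c
  have hMW : W - (N0 + D) = W - N0 - D := by abel
  have hdM : deg (N0 + D) = g - 1 := by rw [deg_add]; omega
  have hRR := hW (N0 + D)
  have hle : rrSpace N0 ≤ rrSpace (N0 + D) := by
    apply rrSpace_mono
    intro P
    rw [Finsupp.add_apply]
    have := hD0 P
    omega
  have hfd := finiteDimensional_rrSpace hF (N0 + D)
  have hle' : ell N0 ≤ ell (N0 + D) := Submodule.finrank_mono hle
  have hM' : ell (W - (N0 + D)) = m := by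
    rw [hMW] at hRR ⊢
    omega
  have hM : ell (N0 + D) = m := by omega
  have heq : rrSpace N0 = rrSpace (N0 + D) :=
    Submodule.eq_of_le_of_finrank_le hle (by
      change ell (N0 + D) ≤ ell N0
      omega)
  refine ⟨N0 + D, hdM, hM, hM', ?_⟩
  intro f hf0
  by_contra hcon
  push Not at hcon
  -- multiplication by `f`
  have hfd0 := finiteDimensional_rrSpace hF N0
  let φ : rrSpace (W - (N0 + D)) →ₗ[k] rrSpace N0 :=
    { toFun := fun v => ⟨f * v.1, by rw [heq]; exact hcon v.1 v.2⟩
      map_add' := fun a b => Subtype.ext (by simp [mul_add])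
      map_smul' := fun a b => Subtype.ext (by simp) }
  have hinj : Function.Injective φ := by
    intro a b hab
    have h1 : f * a.1 = f * b.1 := congrArg Subtype.val hab
    exact Subtype.ext (mul_left_cancel₀ hf0 h1)
  have hfr : finrank k (rrSpace (W - (N0 + D))) = finrank k (rrSpace N0) := by
    change ell _ = ell _
    omega
  have hfd' := finiteDimensional_rrSpace hF (W - (N0 + D))
  have hsurj : Function.Surjective φ :=
    (LinearMap.injective_iff_surjective_of_finrank_eq_finrank hfr).mp hinj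
  have hinv : f⁻¹ ∈ rrSpace (W - N0 - N0 - D) := by
    intro P
    right
    rw [P.ord_inv]
    -- an element of `L(N0)` with the greatest pole at `P`
    have h1 : ¬ rrSpace N0 ≤ rrSpace (N0 - pt P) := by
      intro h
      have hfdP := finiteDimensional_rrSpace hF (N0 - pt P)
      have h2 : ell N0 ≤ ell (N0 - pt P) := Submodule.finrank_mono h
      have h3 := hmin P
      omega
    obtain ⟨u, hu, hu'⟩ := Set.not_subset.mp h1
    have hu0 : u ≠ 0 := by
      rintro rfl
      exact hu' (Submodule.zero_mem _)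
    have hordu : P.ord u = - N0 P := by
      have h4 := hu P
      rcases h4 with h4 | h4
      · exact absurd h4 hu0
      · by_contra hne
        apply hu'
        intro Q
        right
        rw [Finsupp.sub_apply]
        by_cases hQ : P = Q
        · subst hQ
          rw [pt_apply_self]
          omega
        · rw [pt_apply_ne hQ]
          rcases hu Q with h5 | h5
          · exact absurd h5 hu0
          · omega
    obtain ⟨v, hv⟩ := hsurj ⟨u, hu⟩
    have hv' : f * v.1 = u := congrArg Subtype.val hv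
    have hv0 : v.1 ≠ 0 := by
      intro h
      rw [h, mul_zero] at hv'
      exact hu0 hv'.symm
    have h6 : P.ord u = P.ord f + P.ord v.1 := by rw [← hv', P.ord_mul hf0 hv0]
    rcases v.2 P with h7 | h7
    · exact absurd h7 hv0
    · rw [Finsupp.sub_apply, Finsupp.add_apply] at h7
      rw [Finsupp.sub_apply, Finsupp.sub_apply, Finsupp.sub_apply]
      omega
  have h8 := one_le_ell_of_mem hF hinv (inv_ne_zero hf0)
  omega

/-- the part of `φ` where `(1, φ)` is a rational section of `O(M) ⊕ O(N)` -/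
noncomputable def common (hF : IsCurveField k F) (M N : CurvePt k F →₀ ℤ) (φ : F) :
    CurvePt k F →₀ ℤ := M ⊓ (N + dv hF φ)

lemma common_le_left (hF : IsCurveField k F) (M N : CurvePt k F →₀ ℤ) (φ : F) (P : CurvePt k F) :
    common hF M N φ P ≤ M P := by
  rw [common, Finsupp.inf_apply]
  exact inf_le_left

lemma common_le_right (hF : IsCurveField k F) (M N : CurvePt k F →₀ ℤ) (φ : F)
    (P : CurvePt k F) : common hF M N φ P ≤ N P + P.ord φ := by
  rw [common, Finsupp.inf_apply]
  exact inf_le_right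

lemma deg_common_le (hF : IsCurveField k F) {M N : CurvePt k F →₀ ℤ} (hd : deg N = deg M)
    (h : ∀ f : F, f ≠ 0 → ∃ v ∈ rrSpace N, f * v ∉ rrSpace M) {φ : F} (hφ : φ ≠ 0) :
    deg (common hF M N φ) ≤ deg M - 1 := by
  have h1 := deg_mono (common_le_left hF M N φ)
  by_contra hcon
  have h2 : common hF M N φ = M :=
    eq_of_le_of_deg_le (common_le_left hF M N φ) (by omega)
  have h3 : common hF M N φ = N + dv hF φ := by
    apply eq_of_le_of_deg_le
    · intro P
      rw [Finsupp.add_apply, dv_apply]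
      exact common_le_right hF M N φ P
    · rw [deg_add, deg_dv]
      omega
  obtain ⟨v, hv, hv'⟩ := h φ⁻¹ (inv_ne_zero hφ)
  apply hv'
  intro P
  have h4 : M P = N P + P.ord φ := by
    have h5 : (M : CurvePt k F →₀ ℤ) P = (N + dv hF φ) P := by rw [← h2, h3]
    rwa [Finsupp.add_apply, dv_apply] at h5
  have h6 := memO_mul (Or.inr (by rw [P.ord_inv]) : MemO (P.ord φ) P φ⁻¹) (hv P)
  exact memO_mono (by omega) h6

/-- on a curve which is not hyperelliptic there is at most one `φ`, up to constants, with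
`deg (common M N φ) = deg M - 1` -/
lemma unique_common (hF : IsCurveField k F) (hnh : NonHyp k F) {M N : CurvePt k F →₀ ℤ}
    (hd : deg N = deg M) {φ ψ : F} (hφ0 : φ ≠ 0) (hψ0 : ψ ≠ 0)
    (hφ : deg (common hF M N φ) = deg M - 1) (hψ : deg (common hF M N ψ) = deg M - 1) :
    ∃ c : k, ψ = c • φ := by
  have key : ∀ χ : F, χ ≠ 0 → deg (common hF M N χ) = deg M - 1 → ∃ z w : CurvePt k F,
      ∀ P, M P - pt z P = N P + P.ord χ - pt w P := by
    intro χ _ hχ
    obtain ⟨z, hz⟩ := eq_pt_of_deg_one (D := M - common hF M N χ) (by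
      intro P
      rw [Finsupp.sub_apply]
      have := common_le_left hF M N χ P
      omega) (by rw [deg_sub]; omega)
    obtain ⟨w, hw⟩ := eq_pt_of_deg_one (D := N + dv hF χ - common hF M N χ) (by
      intro P
      rw [Finsupp.sub_apply, Finsupp.add_apply, dv_apply]
      have := common_le_right hF M N χ P
      omega) (by rw [deg_sub, deg_add, deg_dv]; omega)
    refine ⟨z, w, fun P => ?_⟩
    have h1 := DFunLike.congr_fun hz P
    have h2 := DFunLike.congr_fun hw P
    rw [Finsupp.sub_apply] at h1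
    rw [Finsupp.sub_apply, Finsupp.add_apply, dv_apply] at h2
    omega
  obtain ⟨z, w, h1⟩ := key φ hφ0 hφ
  obtain ⟨z', w', h2⟩ := key ψ hψ0 hψ
  have hmem : ψ / φ ∈ rrSpace (pt w + pt z') := by
    intro P
    right
    rw [div_eq_mul_inv, P.ord_mul hψ0 (inv_ne_zero hφ0), P.ord_inv, Finsupp.add_apply]
    have h3 := h1 P
    have h4 := h2 P
    have h5 := pt_nonneg z P
    have h6 := pt_nonneg w' P
    omega
  have hone : (1 : F) ∈ rrSpace (pt w + pt z') := by
    intro P
    right
    rw [P.ord_one, Finsupp.add_apply]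
    have h5 := pt_nonneg w P
    have h6 := pt_nonneg z' P
    omega
  have hl : finrank k (rrSpace (pt w + pt z')) ≤ 1 :=
    hnh (pt w + pt z') (by rw [deg_add, deg_pt, deg_pt]; norm_num)
  have hfd := finiteDimensional_rrSpace hF (pt w + pt z')
  obtain ⟨c, hc⟩ : ∃ c : k, c • (⟨1, hone⟩ : rrSpace (pt w + pt z')) = ⟨ψ / φ, hmem⟩ := by
    have h7 := (finrank_le_one_iff (K := k) (V := rrSpace (pt w + pt z'))).mp hl
    obtain ⟨v, hv⟩ := h7
    obtain ⟨a, ha⟩ := hv ⟨1, hone⟩
    obtain ⟨b, hb⟩ := hv ⟨ψ / φ, hmem⟩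
    have ha0 : a ≠ 0 := by
      rintro rfl
      rw [zero_smul] at ha
      exact one_ne_zero (congrArg Subtype.val ha).symm
    refine ⟨b / a, ?_⟩
    rw [← ha, ← hb, smul_smul, div_mul_cancel₀ _ ha0]
  refine ⟨c, ?_⟩
  have h8 : c • (1 : F) = ψ / φ := congrArg Subtype.val hc
  rw [Algebra.smul_def, mul_one] at h8
  rw [Algebra.smul_def, h8, div_mul_cancel₀ _ hφ0]

/-- a unit `γ` at `y` which is not congruent to a multiple of `φ` modulo the square of the
maximal ideal -/
lemma exists_gamma (y : CurvePt k F) (φ : F) : ∃ γ : F, γ ≠ 0 ∧ y.ord γ = 0 ∧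
    ∀ c : k, ¬ MemO (-2) y (c • φ - γ) := by
  obtain ⟨t, ht0, ht⟩ := y.exists_ord_eq_one
  have h1t0 : (1 : F) + t ≠ 0 := by
    intro h
    have h1 : t = -1 := by linear_combination h
    have h2 : y.ord t = 0 := by
      have h3 : MemO 0 y t := by
        rw [h1]
        exact memO_neg (Or.inr (by rw [y.ord_one]; norm_num))
      have h4 : MemO 0 y t⁻¹ := by
        rw [h1]
        have h5 : (-1 : F)⁻¹ = -1 := by norm_num
        rw [h5]
        exact memO_neg (Or.inr (by rw [y.ord_one]; norm_num))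
      rcases h3 with h3 | h3
      · exact absurd h3 ht0
      · rcases h4 with h4 | h4
        · exact absurd h4 (inv_ne_zero ht0)
        · rw [y.ord_inv] at h4
          omega
    omega
  have h1t : y.ord (1 + t) = 0 := by
    have h1 : MemO 0 y (1 + t) := memO_add (Or.inr (by rw [y.ord_one]; norm_num))
      (Or.inr (by omega))
    rcases h1 with h1 | h1
    · exact absurd h1 h1t0
    · by_contra hne
      have h2 : MemO (-1) y (1 + t) := Or.inr (by omega)
      have h3 : MemO (-1) y (1 + t - t) := memO_sub h2 (Or.inr (by omega))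
      rw [add_sub_cancel_right] at h3
      rcases h3 with h3 | h3
      · exact one_ne_zero h3
      · rw [y.ord_one] at h3
        omega
  by_cases hcase : ∀ c : k, ¬ MemO (-2) y (c • φ - 1)
  · exact ⟨1, one_ne_zero, y.ord_one, hcase⟩
  · push Not at hcase
    obtain ⟨c1, hc1⟩ := hcase
    refine ⟨1 + t, h1t0, h1t, ?_⟩
    intro c2 hc2
    -- `(c1 - c2) + c1 t` has order at least two
    have h1 : MemO (-2) y (algebraMap k F (c1 - c2) + c1 • t) := by
      have h2 := memO_sub (memO_smul c2 hc1) (memO_smul c1 hc2)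
      have h3 : c2 • (c1 • φ - 1) - c1 • (c2 • φ - (1 + t)) =
          algebraMap k F (c1 - c2) + c1 • t := by
        simp only [Algebra.smul_def, map_sub]
        ring
      rwa [h3] at h2
    have h4 : MemO (-1) y (algebraMap k F (c1 - c2)) := by
      have h5 := memO_sub (memO_mono (by norm_num : (-2 : ℤ) ≤ -1) h1)
        (memO_smul c1 (Or.inr (by omega) : MemO (-1) y t))
      rwa [add_sub_cancel_right] at h5
    have h6 : c1 - c2 = 0 := by
      rcases h4 with h4 | h4
      · rwa [map_eq_zero] at h4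
      · rw [CurvePt.ord_algebraMap] at h4
        omega
    rw [h6, map_zero, zero_add] at h1
    have h7 : c1 ≠ 0 := by
      rintro rfl
      rw [zero_smul, zero_sub] at hc1
      have h8 := memO_neg hc1
      rw [neg_neg] at h8
      rcases h8 with h8 | h8
      · exact one_ne_zero h8
      · rw [y.ord_one] at h8
        omega
    have h9 := memO_smul c1⁻¹ h1
    rw [smul_smul, inv_mul_cancel₀ h7, one_smul] at h9
    rcases h9 with h9 | h9
    · exact ht0 h9
    · omega

end Pool.Agent.Helper33.CS
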