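import Mathlib
import Pool.Agent.Helper33.CS.Gen

/-!
# Project CS: the modification of `O(M) ⊕ O(N)` at a point

`modBundle M N y γ` has the stalk `{x : x₀ ∈ O(M + y), x₁ - γ x₀ ∈ O(N - y)}` at `y` and the stalk
of `O(M) ⊕ O(N)` elsewhere.
-/

open Module Pool.Agent.Helper11 Pool.Agent.Helper24.Coh

namespace Pool.Agent.Helper33.CS

universe u

variable {k F : Type u} [Field k] [Field F] [Algebra k F]

open Classical in
/-- the function `γ` at `y`, `0` elsewhere -/
noncomputable def gam (y : CurvePt k F) (γ : F) (P : CurvePt k F) : F := if P = y then γ else 0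

lemma gam_self (y : CurvePt k F) (γ : F) : gam y γ y = γ := if_pos rfl

lemma gam_ne {y P : CurvePt k F} (γ : F) (h : P ≠ y) : gam y γ P = 0 := if_neg h

/-- the modification of `O(M) ⊕ O(N)` at `y` -/
noncomputable def modBundle (M N : CurvePt k F →₀ ℤ) (y : CurvePt k F) (γ : F) : Bundle k F where
  stalk P := {x | MemO ((M + pt y) P) P (x 0) ∧ MemO ((N - pt y) P) P (x 1 - gam y γ P * x 0)}
  loc_free := by
    intro P
    obtain ⟨t, ht0, ht⟩ := exists_ord_eq P (-(M + pt y) P)
    obtain ⟨r, hr0, hr⟩ := exists_ord_eq P (-(N - pt y) P)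
    refine ⟨!![t, 0; gam y γ P * t, r], ?_, ?_⟩
    · rw [Matrix.det_fin_two_of]
      simp [ht0, hr0]
    · intro x
      constructor
      · rintro ⟨h0, h1⟩
        refine ⟨![x 0 / t, (x 1 - gam y γ P * x 0) / r], ?_, ?_⟩
        · intro i
          fin_cases i
          · simp only [Fin.zero_eta, Matrix.cons_val_zero]
            rw [← memO_iff_mul ht0 ht, mul_div_cancel₀ _ ht0]
            exact h0
          · simp only [Fin.mk_one, Matrix.cons_val_one, Matrix.cons_val_fin_one]
            rw [← memO_iff_mul hr0 hr, mul_div_cancel₀ _ hr0]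
            exact h1
        · ext i
          fin_cases i
          · simp [Matrix.mulVec, dotProduct, Fin.sum_univ_two, mul_div_cancel₀ _ ht0]
          · simp only [Fin.mk_one, Matrix.mulVec, dotProduct, Fin.sum_univ_two, Matrix.of_apply,
              Matrix.cons_val_one, Matrix.cons_val_zero, Matrix.cons_val_fin_one]
            field_simp
            ring
      · rintro ⟨z, hz, rfl⟩
        constructor
        · have := (memO_iff_mul ht0 ht).mpr (hz 0)
          simpa [Matrix.mulVec, dotProduct, Fin.sum_univ_two] using this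
        · have := (memO_iff_mul hr0 hr).mpr (hz 1)
          have h2 : (Matrix.mulVec !![t, 0; gam y γ P * t, r] z) 1 -
              gam y γ P * (Matrix.mulVec !![t, 0; gam y γ P * t, r] z) 0 = r * z 1 := by
            simp [Matrix.mulVec, dotProduct, Fin.sum_univ_two]
            ring
          rw [h2]
          exact this
  generic := by
    classical
    refine (((M + pt y).support.finite_toSet).union
      (((N - pt y).support.finite_toSet).union (Set.finite_singleton y))).subset ?_
    intro P hP
    by_contra hcon
    simp only [Set.mem_union, Finset.mem_coe, Finsupp.mem_support_iff, not_or, not_not,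
      Set.mem_singleton_iff] at hcon
    apply hP
    intro x
    rw [Set.mem_ofPred_eq, hcon.1, hcon.2.1, gam_ne γ hcon.2.2, zero_mul, sub_zero, memO_zero_iff,
      memO_zero_iff, Fin.forall_fin_two]

lemma mem_modBundle {M N : CurvePt k F →₀ ℤ} {y : CurvePt k F} {γ : F} {P : CurvePt k F}
    {x : Fin 2 → F} : x ∈ (modBundle M N y γ).stalk P ↔
      MemO ((M + pt y) P) P (x 0) ∧ MemO ((N - pt y) P) P (x 1 - gam y γ P * x 0) := Iff.rfl

lemma modBundle_detIso {M N W : CurvePt k F →₀ ℤ} (hMN : M + N = W) (y : CurvePt k F) (γ : F) :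
    (modBundle M N y γ).DetIso W := by
  have hsum : ∀ P, (M + pt y) P + (N - pt y) P = W P := by
    intro P
    rw [← hMN, Finsupp.add_apply, Finsupp.sub_apply, Finsupp.add_apply]
    ring
  refine ⟨1, one_ne_zero, fun P f => ?_⟩
  have hs := hsum P
  constructor
  · rintro ⟨x, hx, z, hz, rfl⟩
    rw [mem_modBundle] at hx hz
    have h0 : 1 * wedge x z =
        x 0 * (z 1 - gam y γ P * z 0) - (x 1 - gam y γ P * x 0) * z 0 := by
      rw [wedge]
      ring
    rw [h0]
    have h1 := memO_mul hx.1 hz.2
    have h2 := memO_mul hx.2 hz.1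
    exact memO_sub (memO_mono (by omega) h1) (memO_mono (by omega) h2)
  · intro hf
    obtain ⟨t, ht0, ht⟩ := exists_ord_eq P (-(M + pt y) P)
    refine ⟨![t, gam y γ P * t], ?_, ![0, f / t], ?_, ?_⟩
    · rw [mem_modBundle]
      refine ⟨Or.inr (by simp only [Matrix.cons_val_zero]; omega), Or.inl ?_⟩
      simp
    · rw [mem_modBundle]
      refine ⟨Or.inl rfl, ?_⟩
      simp only [Matrix.cons_val_one, Matrix.cons_val_zero, Matrix.cons_val_fin_one, mul_zero,
        sub_zero]
      have h1 : MemO (-(M + pt y) P) P t⁻¹ := by
        right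
        rw [P.ord_inv]
        omega
      have := memO_mul hf h1
      rw [div_eq_mul_inv]
      exact memO_mono (by omega) this
    · simp [wedge, mul_div_cancel₀ _ ht0]

/-- bounds for the order of `s` in the modified bundle -/
lemma modBundle_le {M N : CurvePt k F →₀ ℤ} {y : CurvePt k F} {γ : F} {P : CurvePt k F}
    {s : Fin 2 → F} (hs : s ≠ 0) :
    (s 0 = 0 ∨ (modBundle M N y γ).lineOrd P s ≤ P.ord (s 0) + (M + pt y) P) ∧
    (s 1 - gam y γ P * s 0 = 0 ∨
      (modBundle M N y γ).lineOrd P s ≤ P.ord (s 1 - gam y γ P * s 0) + (N - pt y) P) := by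
  have h1 := isOrd_lineOrd (modBundle M N y γ) P hs
  obtain ⟨f, hf0, hf⟩ := exists_ord_eq P (-(modBundle M N y γ).lineOrd P s)
  have h2 := (h1 f hf0).mpr (by omega)
  rw [mem_modBundle, Pi.smul_apply, Pi.smul_apply, smul_eq_mul, smul_eq_mul] at h2
  obtain ⟨h3, h4⟩ := h2
  constructor
  · by_cases h0 : s 0 = 0
    · exact Or.inl h0
    · right
      rw [MemO, P.ord_mul hf0 h0] at h3
      rcases h3 with h | h
      · exact absurd h (mul_ne_zero hf0 h0)
      · omega
  · by_cases h0 : s 1 - gam y γ P * s 0 = 0
    · exact Or.inl h0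
    · right
      have h5 : f * s 1 - gam y γ P * (f * s 0) = f * (s 1 - gam y γ P * s 0) := by ring
      rw [h5, MemO, P.ord_mul hf0 h0] at h4
      rcases h4 with h | h
      · exact absurd h (mul_ne_zero hf0 h0)
      · omega

variable [IsAlgClosed k] [CharZero k]

/-- The modified bundle is stable: all line subbundles have degree `≤ deg M - 1`. -/
theorem modBundle_lineDeg_le (hF : IsCurveField k F) {M N : CurvePt k F →₀ ℤ}
    (hd : deg N = deg M) (h : ∀ f : F, f ≠ 0 → ∃ v ∈ rrSpace N, f * v ∉ rrSpace M)
    {y : CurvePt k F} (hMy : M y = 0) (hNy : N y = 0) {γ : F} (hγ0 : γ ≠ 0) (hγ : y.ord γ = 0)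
    (hbad : ∀ φ : F, φ ≠ 0 → deg (common hF M N φ) = deg M - 1 → ¬ MemO (-2) y (φ - γ))
    {s : Fin 2 → F} (hs : s ≠ 0) : (modBundle M N y γ).lineDeg s ≤ deg M - 1 := by
  obtain ⟨D, hD, hDd⟩ := exists_lineDiv hF (modBundle M N y γ) hs
  rw [← hDd]
  have hMy1 : (M + pt y) y = 1 := by rw [Finsupp.add_apply, pt_apply_self, hMy]; norm_num
  have hNy1 : (N - pt y) y = -1 := by rw [Finsupp.sub_apply, pt_apply_self, hNy]; norm_num
  have hMP : ∀ P, P ≠ y → (M + pt y) P = M P := by
    intro P hP
    rw [Finsupp.add_apply, pt_apply_ne (Ne.symm hP), add_zero]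
  have hNP : ∀ P, P ≠ y → (N - pt y) P = N P := by
    intro P hP
    rw [Finsupp.sub_apply, pt_apply_ne (Ne.symm hP), sub_zero]
  by_cases h0 : s 0 = 0
  · -- the line `(0, 1)`
    have h1 : s 1 ≠ 0 := by
      intro h1
      apply hs
      ext i
      fin_cases i
      · exact h0
      · exact h1
    have h2 : ∀ P, D P ≤ (dv hF (s 1) + (N - pt y)) P := by
      intro P
      rw [hD, Finsupp.add_apply, dv_apply]
      have h3 := (modBundle_le (M := M) (N := N) (y := y) (γ := γ) (P := P) hs).2
      rw [h0, mul_zero, sub_zero] at h3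
      exact h3.resolve_left h1
    have h4 := deg_mono h2
    rw [deg_add, deg_dv, deg_sub, deg_pt] at h4
    omega
  · by_cases h1 : s 1 = 0
    · -- the line `(1, 0)`
      have h2 : ∀ P, D P ≤ (dv hF (s 0) + (M - pt y)) P := by
        intro P
        rw [hD, Finsupp.add_apply, dv_apply, Finsupp.sub_apply]
        obtain ⟨h3, h4⟩ := modBundle_le (M := M) (N := N) (y := y) (γ := γ) (P := P) hs
        by_cases hP : P = y
        · subst hP
          rw [h1, zero_sub, gam_self, hNy1] at h4
          rw [pt_apply_self, hMy]
          have h5 : -(γ * s 0) ≠ 0 := neg_ne_zero.mpr (mul_ne_zero hγ0 h0)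
          have h6 := h4.resolve_left h5
          have h7 : P.ord (-(γ * s 0)) = P.ord (s 0) := by
            have h8 : -(γ * s 0) = (-1 : F) * (γ * s 0) := by ring
            have h9 : P.ord (-1 : F) = 0 := by
              have := P.ord_algebraMap (-1 : k)
              rwa [map_neg, map_one] at this
            rw [h8, P.ord_mul (by norm_num) (mul_ne_zero hγ0 h0), P.ord_mul hγ0 h0, h9, hγ]
            ring
          rw [h7] at h6
          omega
        · rw [pt_apply_ne (Ne.symm hP)]
          have h5 := h3.resolve_left h0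
          rw [hMP P hP] at h5
          omega
      have h4 := deg_mono h2
      rw [deg_add, deg_dv, deg_sub, deg_pt] at h4
      omega
    · -- the line `(1, φ)`
      set φ : F := s 1 / s 0 with hφ
      have hφ0 : φ ≠ 0 := div_ne_zero h1 h0
      have hs1 : s 1 = φ * s 0 := by rw [hφ, div_mul_cancel₀ _ h0]
      have hords1 : ∀ P : CurvePt k F, P.ord (s 1) = P.ord φ + P.ord (s 0) := by
        intro P
        rw [hs1, P.ord_mul hφ0 h0]
      set C : CurvePt k F →₀ ℤ := common hF M N φ + dv hF (s 0) with hC
      have hdC : deg C = deg (common hF M N φ) := by rw [hC, deg_add, deg_dv, add_zero]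
      have hC1 : ∀ P, C P = min (M P) (N P + P.ord φ) + P.ord (s 0) := by
        intro P
        rw [hC, Finsupp.add_apply, dv_apply, common, Finsupp.inf_apply, Finsupp.add_apply, dv_apply]
      have hne : ∀ P, P ≠ y → D P ≤ C P := by
        intro P hP
        rw [hD, hC1]
        obtain ⟨h3, h4⟩ := modBundle_le (M := M) (N := N) (y := y) (γ := γ) (P := P) hs
        rw [gam_ne γ hP, zero_mul, sub_zero, hNP P hP] at h4
        rw [hMP P hP] at h3
        have h5 := h3.resolve_left h0
        have h6 := h4.resolve_left h1
        rw [hords1] at h6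
        rcases le_total (M P) (N P + P.ord φ) with h7 | h7
        · rw [min_eq_left h7]
          omega
        · rw [min_eq_right h7]
          omega
      obtain ⟨h3, h4⟩ := modBundle_le (M := M) (N := N) (y := y) (γ := γ) (P := y) hs
      have hy1 := h3.resolve_left h0
      rw [hMy1] at hy1
      rw [gam_self, hNy1] at h4
      have hCy : C y = min 0 (y.ord φ) + y.ord (s 0) := by
        rw [hC1, hMy, hNy, zero_add]
      -- the difference `s 1 - γ s 0 = (φ - γ) s 0`
      have hdiff : s 1 - γ * s 0 = (φ - γ) * s 0 := by rw [hs1]; ring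
      rw [hdiff] at h4
      have hbd : deg (common hF M N φ) ≤ deg M - 1 := deg_common_le hF hd h hφ0
      have hy : D y ≤ C y + 1 ∧ (¬ MemO (-2) y (φ - γ) → D y ≤ C y) := by
        rw [hD]
        by_cases hz : φ - γ = 0
        · -- `φ = γ`
          have h5 : φ = γ := sub_eq_zero.mp hz
          rw [hCy, h5, hγ, min_self]
          refine ⟨by omega, fun h6 => ?_⟩
          exact absurd (Or.inl (sub_self γ)) h6
        · have h5 := h4.resolve_left (mul_ne_zero hz h0)
          rw [y.ord_mul hz h0] at h5
          rcases lt_trichotomy (y.ord φ) 0 with h6 | h6 | h6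
          · -- `φ` has a pole
            have h7 : y.ord (φ - γ) ≤ y.ord φ := by
              by_contra hcon
              have h8 : MemO (-(y.ord φ + 1)) y (φ - γ + γ) :=
                memO_add (Or.inr (by omega)) (Or.inr (by omega))
              rw [sub_add_cancel] at h8
              rcases h8 with h8 | h8
              · exact hφ0 h8
              · omega
            rw [hCy, min_eq_right h6.le]
            omega
          · rw [hCy, h6, min_self]
            refine ⟨by omega, fun h7 => ?_⟩
            rw [MemO, not_or] at h7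
            omega
          · -- `φ` has a zero
            have h7 : y.ord (φ - γ) ≤ 0 := by
              by_contra hcon
              have h8 : MemO (-1) y (φ - (φ - γ)) :=
                memO_sub (Or.inr (by omega)) (Or.inr (by omega))
              have h9 : φ - (φ - γ) = γ := by ring
              rw [h9] at h8
              rcases h8 with h8 | h8
              · exact hγ0 h8
              · omega
            rw [hCy, min_eq_left h6.le]
            omega
      by_cases hcase : deg (common hF M N φ) = deg M - 1
      · have h5 : ∀ P, D P ≤ C P := by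
          intro P
          by_cases hP : P = y
          · rw [hP]
            exact hy.2 (hbad φ hφ0 hcase)
          · exact hne P hP
        have h6 := deg_mono h5
        omega
      · have h5 : ∀ P, D P ≤ (C + pt y) P := by
          intro P
          rw [Finsupp.add_apply]
          by_cases hP : P = y
          · rw [hP, pt_apply_self]
            exact hy.1
          · rw [pt_apply_ne (Ne.symm hP), add_zero]
            exact hne P hP
        have h6 := deg_mono h5
        rw [deg_add, deg_pt] at h6
        omega

end Pool.Agent.Helper33.CS
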