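import Mathlib
import Pool.Agent.Helper33.CS.Mod

/-!
# Project CS: sections of the modified bundle, existence of points of `U(2, K, n)`
-/

open Module Pool.Agent.Helper11 Pool.Agent.Helper24.Coh

namespace Pool.Agent.Helper33.CS

universe u

variable {k F : Type u} [Field k] [Field F] [Algebra k F]

/-- the sections `(s, t)` of `O(M) ⊕ O(N)` with `t ≡ γ s` at `y` -/
def secs (M N : CurvePt k F →₀ ℤ) (y : CurvePt k F) (γ : F) : Submodule k (Fin 2 → F) where
  carrier := {x | x 0 ∈ rrSpace M ∧ x 1 ∈ rrSpace N ∧ MemO (-1) y (x 1 - γ * x 0)}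
  zero_mem' := by
    refine ⟨Submodule.zero_mem _, Submodule.zero_mem _, Or.inl ?_⟩
    simp
  add_mem' := by
    rintro a b ⟨h1, h2, h3⟩ ⟨h4, h5, h6⟩
    refine ⟨Submodule.add_mem _ h1 h4, Submodule.add_mem _ h2 h5, ?_⟩
    have h7 : (a + b) 1 - γ * (a + b) 0 = (a 1 - γ * a 0) + (b 1 - γ * b 0) := by
      rw [Pi.add_apply, Pi.add_apply]
      ring
    rw [h7]
    exact memO_add h3 h6
  smul_mem' := by
    rintro c a ⟨h1, h2, h3⟩
    refine ⟨Submodule.smul_mem _ c h1, Submodule.smul_mem _ c h2, ?_⟩
    have h7 : (c • a) 1 - γ * (c • a) 0 = c • (a 1 - γ * a 0) := by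
      rw [Pi.smul_apply, Pi.smul_apply, smul_sub, mul_smul_comm]
    rw [h7]
    exact memO_smul c h3

lemma mem_secs {M N : CurvePt k F →₀ ℤ} {y : CurvePt k F} {γ : F} {x : Fin 2 → F} :
    x ∈ secs M N y γ ↔ x 0 ∈ rrSpace M ∧ x 1 ∈ rrSpace N ∧ MemO (-1) y (x 1 - γ * x 0) := Iff.rfl

lemma secs_isSections {M N : CurvePt k F →₀ ℤ} {y : CurvePt k F} (hNy : N y = 0) {γ : F} :
    (modBundle M N y γ).IsSections (secs M N y γ) := by
  rintro x ⟨h1, h2, h3⟩ P
  rw [mem_modBundle]
  refine ⟨memO_mono ?_ (h1 P), ?_⟩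
  · rw [Finsupp.add_apply]
    have := pt_nonneg y P
    omega
  · by_cases hP : P = y
    · subst hP
      rw [gam_self, Finsupp.sub_apply, pt_apply_self, hNy]
      exact h3
    · rw [gam_ne γ hP, zero_mul, sub_zero, Finsupp.sub_apply, pt_apply_ne (Ne.symm hP), sub_zero]
      exact h2 P

/-- bound for the dimension of a subspace by one of its coordinates -/
lemma finrank_le_of_coord {U : Submodule k (Fin 2 → F)} (Z : Submodule k F)
    [FiniteDimensional k Z] (i : Fin 2) (hmem : ∀ x ∈ U, x i ∈ Z)
    (hinj : ∀ x ∈ U, x i = 0 → x = 0) : finrank k U ≤ finrank k Z := by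
  let ψ : U →ₗ[k] Z :=
    { toFun := fun x => ⟨x.1 i, hmem x.1 x.2⟩
      map_add' := fun _ _ => rfl
      map_smul' := fun _ _ => rfl }
  apply LinearMap.finrank_le_finrank_of_injective (f := ψ)
  refine (injective_iff_map_eq_zero ψ).mpr ?_
  intro x hx
  exact Subtype.ext (hinj x.1 x.2 (congrArg Subtype.val hx))

/-- the inclusion of `L(M) × L(N)` -/
def vec (M N : CurvePt k F →₀ ℤ) : (rrSpace M × rrSpace N) →ₗ[k] (Fin 2 → F) where
  toFun p := ![(p.1 : F), (p.2 : F)]
  map_add' p q := by
    ext i
    fin_cases i <;> simp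
  map_smul' c p := by
    ext i
    fin_cases i <;> simp

lemma vec_injective (M N : CurvePt k F →₀ ℤ) : Function.Injective (vec M N) := by
  intro p q hpq
  have h0 := congrFun hpq 0
  have h1 := congrFun hpq 1
  exact Prod.ext (Subtype.ext h0) (Subtype.ext h1)

variable [IsAlgClosed k] [CharZero k]

lemma finrank_secs (hF : IsCurveField k F) {M N : CurvePt k F →₀ ℤ} {y : CurvePt k F}
    (hMy : M y = 0) (hNy : N y = 0) {γ : F} (hγ : y.ord γ = 0) :
    ell M + ell N ≤ finrank k (secs M N y γ) + 1 := by
  have hfM := finiteDimensional_rrSpace hF M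
  have hfN := finiteDimensional_rrSpace hF N
  have hS : finrank k (LinearMap.range (vec M N)) = ell M + ell N := by
    rw [LinearMap.finrank_range_of_inj (vec_injective M N), Module.finrank_prod]
    rfl
  have hle : secs M N y γ ≤ LinearMap.range (vec M N) := by
    rintro x ⟨h1, h2, -⟩
    refine ⟨(⟨x 0, h1⟩, ⟨x 1, h2⟩), ?_⟩
    ext i
    fin_cases i <;> rfl
  have hfd : FiniteDimensional k (secs M N y γ) := Submodule.finiteDimensional_of_le hle
  have hval : ∀ x ∈ LinearMap.range (vec M N), x 0 ∈ rrSpace M ∧ x 1 ∈ rrSpace N ∧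
      MemO 0 y (x 1 - γ * x 0) := by
    rintro _ ⟨p, rfl⟩
    refine ⟨p.1.2, p.2.2, ?_⟩
    apply memO_sub
    · have := p.2.2 y
      rwa [hNy] at this
    · have h1 := p.1.2 y
      rw [hMy] at h1
      exact memO_mul (m := 0) (n := 0) (Or.inr (by omega)) h1
  rw [← hS]
  by_cases hcase : LinearMap.range (vec M N) ≤ secs M N y γ
  · have := Submodule.finrank_mono hcase
    omega
  · obtain ⟨x', hx', hx''⟩ := Set.not_subset.mp hcase
    obtain ⟨h1, h2, h3⟩ := hval x' hx'
    have h4 : ¬ MemO (-1) y (x' 1 - γ * x' 0) := fun h => hx'' ⟨h1, h2, h⟩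
    rw [MemO, not_or] at h4
    have h5 : y.ord (x' 1 - γ * x' 0) = -0 := by
      rcases h3 with h | h
      · exact absurd h h4.1
      · omega
    have hsup : LinearMap.range (vec M N) ≤ secs M N y γ ⊔ Submodule.span k {x'} := by
      intro x hx
      obtain ⟨h6, h7, h8⟩ := hval x hx
      obtain ⟨c, hc⟩ := exists_sub_smul hF y h8 h4.1 h5
      have h9 : x - c • x' ∈ secs M N y γ := by
        refine ⟨Submodule.sub_mem _ h6 (Submodule.smul_mem _ c h1),
          Submodule.sub_mem _ h7 (Submodule.smul_mem _ c h2), ?_⟩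
        have h10 : (x - c • x') 1 - γ * (x - c • x') 0 =
            (x 1 - γ * x 0) - c • (x' 1 - γ * x' 0) := by
          rw [Pi.sub_apply, Pi.sub_apply, Pi.smul_apply, Pi.smul_apply, smul_sub,
            ← mul_smul_comm]
          ring
        rw [h10]
        exact memO_mono (by norm_num) hc
      have h11 : x = (x - c • x') + c • x' := by abel
      rw [h11]
      exact Submodule.add_mem_sup h9 (Submodule.smul_mem _ _ (Submodule.mem_span_singleton_self x'))
    have h12 := Submodule.finrank_mono hsup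
    have h13 := Submodule.finrank_add_le_finrank_add_finrank (secs M N y γ)
      (Submodule.span k {x'})
    have h14 : finrank k (Submodule.span k {x'}) ≤ 1 := by
      have := finrank_span_le_card (R := k) ({x'} : Set (Fin 2 → F))
      simpa using this
    omega

/-- every line meets the space of sections in small dimension -/
lemma secs_line (hF : IsCurveField k F) {M N : CurvePt k F →₀ ℤ} {m : ℕ} (hM : ell M = m)
    (hN : ell N = m) (h : ∀ f : F, f ≠ 0 → ∃ v ∈ rrSpace N, f * v ∉ rrSpace M)
    {y : CurvePt k F} (hMy : M y = 0) (hNy : N y = 0) (hbM : ell (M - pt y) < ell M)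
    (hbN : ell (N - pt y) < ell N) {γ : F} (hγ0 : γ ≠ 0) (hγ : y.ord γ = 0) {s : Fin 2 → F}
    (hs : s ≠ 0) {U : Submodule k (Fin 2 → F)} (hU : U ≤ secs M N y γ)
    (hUs : ∀ x ∈ U, ∃ f : F, x = f • s) : finrank k U + 1 ≤ m := by
  have hfM := finiteDimensional_rrSpace hF (M - pt y)
  have hfN := finiteDimensional_rrSpace hF (N - pt y)
  have hfN' := finiteDimensional_rrSpace hF N
  by_cases h0 : s 0 = 0
  · have h1 : s 1 ≠ 0 := by
      intro h1
      apply hs
      ext i
      fin_cases i
      · exact h0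
      · exact h1
    have hx0 : ∀ x ∈ U, x 0 = 0 := by
      intro x hx
      obtain ⟨f, rfl⟩ := hUs x hx
      rw [Pi.smul_apply, h0, smul_zero]
    have h2 : finrank k U ≤ finrank k (rrSpace (N - pt y)) := by
      apply finrank_le_of_coord _ 1
      · intro x hx P
        obtain ⟨h3, h4, h5⟩ := hU hx
        rw [Finsupp.sub_apply]
        by_cases hP : y = P
        · subst hP
          rw [pt_apply_self, hNy]
          rw [hx0 x hx, mul_zero, sub_zero] at h5
          exact h5
        · rw [pt_apply_ne hP, sub_zero]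
          exact h4 P
      · intro x hx hx1
        ext i
        fin_cases i
        · exact hx0 x hx
        · exact hx1
    have h3 : finrank k (rrSpace (N - pt y)) = ell (N - pt y) := rfl
    omega
  · by_cases h1 : s 1 = 0
    · have hx1 : ∀ x ∈ U, x 1 = 0 := by
        intro x hx
        obtain ⟨f, rfl⟩ := hUs x hx
        rw [Pi.smul_apply, h1, smul_zero]
      have h2 : finrank k U ≤ finrank k (rrSpace (M - pt y)) := by
        apply finrank_le_of_coord _ 0
        · intro x hx P
          obtain ⟨h3, h4, h5⟩ := hU hx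
          rw [Finsupp.sub_apply]
          by_cases hP : y = P
          · subst hP
            rw [pt_apply_self, hMy]
            rw [hx1 x hx, zero_sub] at h5
            have h6 := memO_mul (m := 0) (n := -1) (f := -γ⁻¹)
              (memO_neg (Or.inr (by rw [y.ord_inv]; omega))) h5
            have h7 : -γ⁻¹ * -(γ * x 0) = x 0 := by
              field_simp
            rw [h7] at h6
            exact memO_mono (by norm_num) h6
          · rw [pt_apply_ne hP, sub_zero]
            exact h3 P
        · intro x hx hx0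
          ext i
          fin_cases i
          · exact hx0
          · exact hx1 x hx
      have h3 : finrank k (rrSpace (M - pt y)) = ell (M - pt y) := rfl
      omega
    · have hf0 : s 0 / s 1 ≠ 0 := div_ne_zero h0 h1
      obtain ⟨v, hv, hv'⟩ := h _ hf0
      let Z : Submodule k F := rrSpace N ⊓ (rrSpace M).comap (LinearMap.mulLeft k (s 0 / s 1))
      have hZ : Z < rrSpace N := by
        apply lt_of_le_of_ne inf_le_left
        intro heq
        apply hv'
        have h2 : v ∈ rrSpace N ⊓ (rrSpace M).comap (LinearMap.mulLeft k (s 0 / s 1)) := by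
          rw [heq]
          exact hv
        exact h2.2
      have hZfd : FiniteDimensional k Z := Submodule.finiteDimensional_of_le hZ.le
      have h3 : finrank k U ≤ finrank k Z := by
        apply finrank_le_of_coord _ 1
        · intro x hx
          obtain ⟨h4, h5, -⟩ := hU hx
          refine ⟨h5, ?_⟩
          change s 0 / s 1 * x 1 ∈ rrSpace M
          obtain ⟨f, rfl⟩ := hUs x hx
          have h6 : s 0 / s 1 * (f • s) 1 = (f • s) 0 := by
            rw [Pi.smul_apply, Pi.smul_apply, smul_eq_mul, smul_eq_mul]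
            field_simp
          rw [h6]
          exact h4
        · intro x hx hx1
          obtain ⟨f, rfl⟩ := hUs x hx
          rw [Pi.smul_apply, smul_eq_mul] at hx1
          rw [(mul_eq_zero.mp hx1).resolve_right h1, zero_smul]
      have h4 : finrank k Z < finrank k (rrSpace N) := Submodule.finrank_lt_finrank_of_lt hZ
      have h5 : finrank k (rrSpace N) = ell N := rfl
      omega

/-- a subspace of given dimension -/
lemma exists_sub {V : Submodule k (Fin 2 → F)} {n : ℕ} (hn : n ≤ finrank k V) :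
    ∃ H ≤ V, finrank k H = n := by
  obtain ⟨f, hf⟩ := exists_linearIndependent_of_le_finrank hn
  refine ⟨(Submodule.span k (Set.range f)).map V.subtype, ?_, ?_⟩
  · rintro _ ⟨x, -, rfl⟩
    exact x.2
  · rw [Submodule.finrank_map_subtype_eq, finrank_span_eq_card hf, Fintype.card_fin]

/-- Existence: a line bundle `M` of degree `g - 1` with `m` sections and `f L(K - M) ⊄ L(M)` for all
`f ≠ 0` gives a point of `U(2, K, n)` for `n = 2m - 2, 2m - 1`. -/
theorem exists_of_good (hF : IsCurveField k F) (hnh : NonHyp k F) {g : ℕ}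
    {W : CurvePt k F →₀ ℤ} (hW : IsGenusCanonical g W) {m : ℕ} (hm : 1 ≤ m)
    {M : CurvePt k F →₀ ℤ} (hM : deg M = g - 1) (hl : ell M = m) (hl' : ell (W - M) = m)
    (h : ∀ f : F, f ≠ 0 → ∃ v ∈ rrSpace (W - M), f * v ∉ rrSpace M) {n : ℕ}
    (hn : n ≤ 2 * m - 1) (hn' : 2 * m - 2 ≤ n) :
    ∃ (E : Bundle k F) (H : Submodule k (Fin 2 → F)), IsStable E (deg W) ∧
      ∀ α : ℝ, 0 < α → InG W n α E H := by
  have hWd := deg_canonical hW
  have hd : deg (W - M) = deg M := by rw [deg_sub]; omega
  -- the point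
  have hfin := ((M.support.finite_toSet).union ((W - M).support.finite_toSet)).union
    ((finite_base hF (D := M) (by omega)).union (finite_base hF (D := W - M) (by omega)))
  obtain ⟨y, hy⟩ := exists_pt_notMem hF hfin
  simp only [Set.mem_union, Finset.mem_coe, Finsupp.mem_support_iff, not_or, not_not,
    Set.mem_ofPred_eq, not_le] at hy
  obtain ⟨⟨hMy, hNy⟩, hbM, hbN⟩ := hy
  -- the function `γ`
  obtain ⟨γ, hγ0, hγ, hbad⟩ : ∃ γ : F, γ ≠ 0 ∧ y.ord γ = 0 ∧ ∀ φ : F, φ ≠ 0 →
      deg (common hF M (W - M) φ) = deg M - 1 → ¬ MemO (-2) y (φ - γ) := by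
    by_cases hex : ∃ φ : F, φ ≠ 0 ∧ deg (common hF M (W - M) φ) = deg M - 1
    · obtain ⟨φ₀, hφ0, hφ₀⟩ := hex
      obtain ⟨γ, h1, h2, h3⟩ := exists_gamma y φ₀
      refine ⟨γ, h1, h2, fun φ hφ hdφ => ?_⟩
      obtain ⟨c, rfl⟩ := unique_common hF hnh hd hφ0 hφ hφ₀ hdφ
      exact h3 c
    · push Not at hex
      exact ⟨1, one_ne_zero, y.ord_one, fun φ hφ hdφ => absurd hdφ (hex φ hφ)⟩
  have hdim := finrank_secs hF (M := M) (N := W - M) hMy hNy hγ
  obtain ⟨H, hH, hHn⟩ := exists_sub (V := secs M (W - M) y γ) (n := n) (by omega)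
  refine ⟨modBundle M (W - M) y γ, H, ?_, ?_⟩
  · intro s hs
    have := modBundle_lineDeg_le hF hd h hMy hNy hγ0 hγ hbad hs
    omega
  · intro α hα
    refine ⟨modBundle_detIso (by abel) y γ, ?_, hHn, ?_, ?_⟩
    · intro x hx P
      exact secs_isSections hNy x (hH hx) P
    · intro s hs U hU hUs
      have h1 := modBundle_lineDeg_le hF hd h hMy hNy hγ0 hγ hbad hs
      have h2 := secs_line hF hl hl' h hMy hNy hbM hbN hγ0 hγ hs (hU.trans hH) hUs
      have h3 : 2 * finrank k U ≤ n := by omega
      have h4 : (2 : ℝ) * finrank k U ≤ n := by exact_mod_cast h3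
      have h5 : ((modBundle M (W - M) y γ).lineDeg s : ℝ) ≤ g - 2 := by
        have h6 : (modBundle M (W - M) y γ).lineDeg s ≤ g - 2 := by omega
        exact_mod_cast h6
      rw [hWd, hHn]
      push_cast
      nlinarith
    · intro U hU
      have hfd : FiniteDimensional k H := by
        rcases Nat.eq_zero_or_pos n with h0 | h0
        · have h7 : FiniteDimensional k (secs M (W - M) y γ) := by
            have hfM := finiteDimensional_rrSpace hF M
            have hfN := finiteDimensional_rrSpace hF (W - M)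
            apply Submodule.finiteDimensional_of_le (S₂ := LinearMap.range (vec M (W - M)))
            rintro x ⟨h1, h2, -⟩
            refine ⟨(⟨x 0, h1⟩, ⟨x 1, h2⟩), ?_⟩
            ext i
            fin_cases i <;> rfl
          exact Submodule.finiteDimensional_of_le hH
        · exact FiniteDimensional.of_finrank_pos (by omega)
      have h3 : finrank k U < finrank k H := Submodule.finrank_lt_finrank_of_lt hU
      have h4 : (finrank k U : ℝ) < finrank k H := by exact_mod_cast h3
      have h5 : α * finrank k U < α * finrank k H := mul_lt_mul_of_pos_left h4 hα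
      linarith

end Pool.Agent.Helper33.CS
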