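import Mathlib
import Pool.Agent.Helper33.CS.Sec

/-!
# Project CS: main theorems
-/

open Module Pool.Agent.Helper11 Pool.Agent.Helper24.Coh

namespace Pool.Agent.Helper33.CS

universe u

variable {k F : Type u} [Field k] [Field F] [Algebra k F] [IsAlgClosed k] [CharZero k]

/-- A divisor `N` of degree at most `g - 1` with more than `n / 2` sections gives a coherent
system `(E, H)` with `E` stable which is `α`-stable for all `α > 0`. -/
theorem exists_of_divisor (hF : IsCurveField k F) (hnh : NonHyp k F) {g : ℕ}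
    {W : CurvePt k F →₀ ℤ} (hW : IsGenusCanonical g W) {n : ℕ} (hn : 2 ≤ n)
    {N : CurvePt k F →₀ ℤ} (hN : deg N ≤ g - 1) (hl : n < 2 * ell N)
    (hθ : deg N = g - 1 → ell (W - N - N) = 0) :
    ∃ (E : Bundle k F) (H : Submodule k (Fin 2 → F)), IsStable E (deg W) ∧
      ∀ α : ℝ, 0 < α → InG W n α E H := by
  obtain ⟨M, hM, hlM, hlM', h⟩ := exists_good hF hnh hW (m := n / 2 + 1) (by omega) hN (by omega)
    hθ
  exact exists_of_good hF hnh hW (m := n / 2 + 1) (by omega) hM hlM hlM' h (by omega) (by omega)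

omit [IsAlgClosed k] [CharZero k] in
/-- sections of a line subbundle -/
lemma smul_memO {E : Bundle k F} {H : Submodule k (Fin 2 → F)} (hH : E.IsSections H)
    {s : Fin 2 → F} (hs : s ≠ 0) {D : CurvePt k F →₀ ℤ} (hD : ∀ P, D P = E.lineOrd P s) {f : F}
    (hf : f • s ∈ H) : f ∈ rrSpace D := by
  intro P
  rcases eq_or_ne f 0 with h0 | h0
  · exact Or.inl h0
  · right
    rw [hD]
    exact (isOrd_lineOrd E P hs f h0).mp (hH _ hf P)

lemma finrank_le_ell (hF : IsCurveField k F) {E : Bundle k F} {H : Submodule k (Fin 2 → F)}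
    (hH : E.IsSections H) {s : Fin 2 → F} (hs : s ≠ 0) {D : CurvePt k F →₀ ℤ}
    (hD : ∀ P, D P = E.lineOrd P s) {U : Submodule k (Fin 2 → F)} (hU : U ≤ H)
    (hUs : ∀ x ∈ U, ∃ f : F, x = f • s) : finrank k U ≤ ell D := by
  obtain ⟨i, hi⟩ := Function.ne_iff.mp hs
  rw [Pi.zero_apply] at hi
  have hfd := finiteDimensional_rrSpace hF D
  let ψ : U →ₗ[k] rrSpace D :=
    { toFun := fun x => ⟨x.1 i / s i, by
        obtain ⟨f, hf⟩ := hUs x.1 x.2
        have h1 : x.1 i / s i = f := by
          rw [hf, Pi.smul_apply, smul_eq_mul, mul_div_cancel_right₀ _ hi]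
        rw [h1]
        apply smul_memO hH hs hD
        rw [← hf]
        exact hU x.2⟩
      map_add' := fun x y => Subtype.ext (by
        change (x.1 i + y.1 i) / s i = x.1 i / s i + y.1 i / s i
        rw [add_div])
      map_smul' := fun c x => Subtype.ext (by
        change (c • x.1 i) / s i = c • (x.1 i / s i)
        rw [smul_div_assoc]) }
  apply LinearMap.finrank_le_finrank_of_injective (f := ψ)
  refine (injective_iff_map_eq_zero ψ).mpr ?_
  intro x hx
  have h1 : x.1 i / s i = 0 := congrArg Subtype.val hx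
  obtain ⟨f, hf⟩ := hUs x.1 x.2
  rw [hf, Pi.smul_apply, smul_eq_mul, mul_div_cancel_right₀ _ hi] at h1
  rw [h1, zero_smul] at hf
  exact Subtype.ext hf

/-- from `B(2, K, n)` to `U(2, K, n)` -/
theorem exists_of_bNonempty (hF : IsCurveField k F) (hnh : NonHyp k F) {g : ℕ}
    {W : CurvePt k F →₀ ℤ} (hW : IsGenusCanonical g W) {n : ℕ} (hn : 2 ≤ n)
    (hB : BNonempty W n) :
    ∃ (E : Bundle k F) (H : Submodule k (Fin 2 → F)), IsStable E (deg W) ∧
      ∀ α : ℝ, 0 < α → InG W n α E H := by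
  have hWd := deg_canonical hW
  obtain ⟨E, H, hdet, hE, hH, hHn⟩ := hB
  have hfd : FiniteDimensional k H := FiniteDimensional.of_finrank_pos (by omega)
  by_cases hb : ∀ s : Fin 2 → F, s ≠ 0 → ∀ U : Submodule k (Fin 2 → F), U ≤ H →
      (∀ x ∈ U, ∃ f : F, x = f • s) → 2 * finrank k U ≤ n
  · refine ⟨E, H, hE, fun α hα => ⟨hdet, hH, hHn, ?_, ?_⟩⟩
    · intro s hs U hU hUs
      have h1 := hb s hs U hU hUs
      have h2 := hE s hs
      have h3 : (2 : ℝ) * finrank k U ≤ n := by exact_mod_cast h1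
      have h4 : (2 : ℝ) * E.lineDeg s < deg W := by exact_mod_cast h2
      rw [hHn]
      nlinarith
    · intro U hU
      have h3 : finrank k U < finrank k H := Submodule.finrank_lt_finrank_of_lt hU
      have h4 : (finrank k U : ℝ) < finrank k H := by exact_mod_cast h3
      have h5 : α * finrank k U < α * finrank k H := mul_lt_mul_of_pos_left h4 hα
      linarith
  · push Not at hb
    obtain ⟨s, hs, U, hU, hUs, hgt⟩ := hb
    obtain ⟨D, hD, hDd⟩ := exists_lineDiv hF E hs
    have h1 := finrank_le_ell hF hH hs hD hU hUs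
    have h2 := hE s hs
    exact exists_of_divisor hF hnh hW hn (N := D) (by omega) (by omega) (fun h => by omega)

/-- from `G(α; 2, K, n)` to `U(2, K, n)` -/
theorem exists_of_gNonempty (hF : IsCurveField k F) (hnh : NonHyp k F) {g : ℕ}
    {W : CurvePt k F →₀ ℤ} (hW : IsGenusCanonical g W) {n : ℕ} (hn : 2 ≤ n)
    (hθ : ∀ N : CurvePt k F →₀ ℤ, deg N = g - 1 → n < 2 * ell N → ell (W - N - N) = 0) {α : ℝ}
    (hα : 0 < α) (hG : GNonempty W n α) :
    ∃ (E : Bundle k F) (H : Submodule k (Fin 2 → F)), IsStable E (deg W) ∧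
      ∀ α : ℝ, 0 < α → InG W n α E H := by
  have hWd := deg_canonical hW
  obtain ⟨E, H, hEH⟩ := hG
  by_cases hE : IsStable E (deg W)
  · exact exists_of_bNonempty hF hnh hW hn ⟨E, H, hEH.det, hE, hEH.sections, hEH.dim⟩
  · have hfd : FiniteDimensional k H := FiniteDimensional.of_finrank_pos (by rw [hEH.dim]; omega)
    unfold IsStable at hE
    push Not at hE
    obtain ⟨s, hs, hdeg⟩ := hE
    obtain ⟨D, hD, hDd⟩ := exists_lineDiv hF E hs
    obtain ⟨U, hU, hUs, hdim⟩ := finrank_le_quotient hF hEH.det hEH.sections hs hD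
    have h1 := hEH.stable.1 s hs U hU hUs
    rw [hEH.dim] at hdim h1
    have h2 : 2 * finrank k U < n := by
      have h3 : (deg W : ℝ) ≤ 2 * E.lineDeg s := by exact_mod_cast hdeg
      have h4 : α * (2 * finrank k U) < α * n := by linarith
      have h5 := lt_of_mul_lt_mul_left h4 hα.le
      exact_mod_cast h5
    have h6 : deg (W - D) ≤ g - 1 := by rw [deg_sub]; omega
    exact exists_of_divisor hF hnh hW hn (N := W - D) h6 (by omega)
      (fun h => hθ _ h (by omega))

omit [IsAlgClosed k] [CharZero k] in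
lemma uNonempty_of_exists {W : CurvePt k F →₀ ℤ} {n : ℕ}
    (h : ∃ (E : Bundle k F) (H : Submodule k (Fin 2 → F)), IsStable E (deg W) ∧
      ∀ α : ℝ, 0 < α → InG W n α E H) : UNonempty W n := by
  obtain ⟨E, H, hE, hEH⟩ := h
  exact ⟨E, H, hE, 0, hEH⟩

omit [IsAlgClosed k] [CharZero k] in
lemma bNonempty_of_uNonempty {W : CurvePt k F →₀ ℤ} {n : ℕ} (h : UNonempty W n) :
    BNonempty W n := by
  obtain ⟨E, H, hE, α₀, hEH⟩ := h
  have h1 := hEH (α₀ + 1) (by linarith)
  exact ⟨E, H, h1.det, hE, h1.sections, h1.dim⟩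

end Pool.Agent.Helper33.CS
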