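import Mathlib
import Pool.Agent.Helper33.CS.Main

/-!
Let `C` be a non-hyperelliptic smooth projective curve of genus `g` over an algebraically closed
field of characteristic 0 and `n ≥ 2`.

(1) `U(2, K, n)` is not empty if and only if `B(2, K, n)` is not empty; and then one `(E, V)`, `E`
stable, is `α`-stable for all `α > 0`.
(2) If no theta characteristic of `C` has more than `n / 2` sections, this is the case if and only
if `G(α; 2, K, n)` is not empty for some `α > 0`.
(3) It is the case if some line bundle `N`, `deg N ≤ g - 1`, `N` not a theta characteristic, has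
more than `n / 2` sections.
(4) If no theta characteristic has two sections, then the conjecture (Q1 and Q2) holds for `C` and
all `n ≥ 2` if and only if for all `n ≥ 2`: `B(2, K, n)` is not empty iff `β(2, K, n) ≥ 0`.
-/

open Module Pool.Agent.Helper11 Pool.Agent.Helper24.Coh Pool.Agent.Helper33.CS

namespace Pool.Agent.Helper33.CS.Slim

universe u

/-- `θ` is a theta characteristic: `2θ` is linearly equivalent to the canonical divisor `W`. -/
def IsTheta {k F : Type u} [Field k] [Field F] [Algebra k F] (W θ : CurvePt k F →₀ ℤ) : Prop :=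
  2 * deg θ = deg W ∧ 1 ≤ ell (W - θ - θ)

theorem main (k F : Type u) [Field k] [IsAlgClosed k] [CharZero k] [Field F] [Algebra k F]
    (hF : IsCurveField k F) (hC : NonHyp k F) (W : CurvePt k F →₀ ℤ) (hW : IsCanonical W) :
    (∀ n : ℕ, 2 ≤ n →
      (UNonempty W n ↔ BNonempty W n) ∧
      (UNonempty W n → ∃ (E : Bundle k F) (H : Submodule k (Fin 2 → F)), IsStable E (deg W) ∧
        ∀ α : ℝ, 0 < α → InG W n α E H) ∧
      ((∀ θ : CurvePt k F →₀ ℤ, IsTheta W θ → 2 * ell θ ≤ n) →
        ((∃ α : ℝ, 0 < α ∧ GNonempty W n α) ↔ UNonempty W n)) ∧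
      (∀ N : CurvePt k F →₀ ℤ, 2 * deg N ≤ deg W → n < 2 * ell N → ¬ IsTheta W N →
        UNonempty W n)) ∧
    ((∀ θ : CurvePt k F →₀ ℤ, IsTheta W θ → ell θ ≤ 1) →
      ((∀ n : ℕ, 2 ≤ n →
          (beta (genus k F) n < 0 → ∀ α : ℝ, 0 < α → ¬ GNonempty W n α) ∧
          (0 ≤ beta (genus k F) n → UNonempty W n)) ↔
        ∀ n : ℕ, 2 ≤ n → (BNonempty W n ↔ 0 ≤ beta (genus k F) n))) := by
  have hG := isGenusCanonical hF hW
  have hWd := deg_canonical hG
  have h1 : ∀ n : ℕ, 2 ≤ n → (UNonempty W n ↔ BNonempty W n) := fun n hn =>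
    ⟨bNonempty_of_uNonempty, fun h => uNonempty_of_exists (exists_of_bNonempty hF hC hG hn h)⟩
  have h2 : ∀ n : ℕ, 2 ≤ n → (∀ θ : CurvePt k F →₀ ℤ, IsTheta W θ → 2 * ell θ ≤ n) →
      ((∃ α : ℝ, 0 < α ∧ GNonempty W n α) ↔ UNonempty W n) := by
    intro n hn hθ
    constructor
    · rintro ⟨α, hα, h⟩
      apply uNonempty_of_exists
      apply exists_of_gNonempty hF hC hG hn _ hα h
      intro N hN hl
      by_contra hne
      have := hθ N ⟨by omega, Nat.one_le_iff_ne_zero.mpr hne⟩
      omega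
    · rintro ⟨E, H, -, α₀, hEH⟩
      exact ⟨max α₀ 0 + 1, by positivity, E, H,
        hEH _ (lt_of_le_of_lt (le_max_left α₀ 0) (lt_add_one _))⟩
  refine ⟨fun n hn => ⟨h1 n hn, ?_, h2 n hn, ?_⟩, ?_⟩
  · intro h
    exact exists_of_bNonempty hF hC hG hn ((h1 n hn).mp h)
  · intro N hN hl hθ
    apply uNonempty_of_exists
    apply exists_of_divisor hF hC hG hn (N := N) (by omega) hl
    intro h
    by_contra hne
    exact hθ ⟨by omega, Nat.one_le_iff_ne_zero.mpr hne⟩
  · intro hθ
    have h3 : ∀ n : ℕ, 2 ≤ n → ((∃ α : ℝ, 0 < α ∧ GNonempty W n α) ↔ UNonempty W n) := by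
      intro n hn
      apply h2 n hn
      intro θ h
      have := hθ θ h
      omega
    constructor
    · intro h n hn
      obtain ⟨hQ1, hQ2⟩ := h n hn
      constructor
      · intro hB
        by_contra hβ
        obtain ⟨α, hα, hG'⟩ := (h3 n hn).mpr ((h1 n hn).mpr hB)
        exact hQ1 (by omega) α hα hG'
      · intro hβ
        exact (h1 n hn).mp (hQ2 hβ)
    · intro h n hn
      constructor
      · intro hβ α hα hG'
        have := (h n hn).mp ((h1 n hn).mp ((h3 n hn).mp ⟨α, hα, hG'⟩))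
        omega
      · intro hβ
        exact (h1 n hn).mpr ((h n hn).mpr hβ)

end Pool.Agent.Helper33.CS.Slim
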