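import Mathlib
import Pool.Agent.Helper11.CurveBasic

/-!
Coherent systems of rank two with canonical determinant on the smooth projective curve `C` with
function field `F` over `k`.

A rank two vector bundle is given by its generic fibre, identified with `F²`, and its stalks:
a free `O_P`-lattice in `F²` for every closed point `P`, equal to `O_P²` for all but finitely many
`P`.  (Every rank two bundle on `C` is isomorphic to one of these.)
-/

open Module Pool.Agent.Helper11

namespace Pool.Agent.Helper33.CoherentSystemsA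

universe u

/-- A rank two vector bundle with generic fibre `F²`. -/
structure Bundle (k F : Type u) [Field k] [Field F] [Algebra k F] where
  /-- the stalk at `P`, a subset of the generic fibre -/
  stalk : CurvePt k F → Set (Fin 2 → F)
  /-- the stalk is the free `O_P`-module on the columns of an invertible matrix -/
  loc_free : ∀ P, ∃ A : Matrix (Fin 2) (Fin 2) F, A.det ≠ 0 ∧
    ∀ x, x ∈ stalk P ↔ ∃ y : Fin 2 → F, (∀ i, y i ∈ P.ring) ∧ x = A.mulVec y
  /-- almost all stalks are `O_P²` -/
  generic : {P | ¬ ∀ x : Fin 2 → F, x ∈ stalk P ↔ ∀ i, x i ∈ P.ring}.Finite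

variable {k F : Type u} [Field k] [Field F] [Algebra k F]

/-- the degree of a divisor -/
noncomputable def deg (D : CurvePt k F →₀ ℤ) : ℤ := D.sum fun _ n => n

/-- `f` is a section at `P` of the line bundle `O(D)`, `n = D(P)` -/
def MemO (n : ℤ) (P : CurvePt k F) (f : F) : Prop := f = 0 ∨ -n ≤ P.ord f

/-- `l(D)`, the dimension of the Riemann-Roch space `L(D)`, the space of all `f` which are sections
of `O(D)` at every point (`Set.finrank` is the dimension of the span of a set) -/
noncomputable def ell (D : CurvePt k F →₀ ℤ) : ℕ :=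
  Set.finrank k {f : F | ∀ P : CurvePt k F, MemO (D P) P f}

/-- The genus of the curve: the greatest value of `deg D + 1 - l(D)`. -/
noncomputable def genus (k F : Type u) [Field k] [Field F] [Algebra k F] : ℕ :=
  sSup {n : ℕ | ∃ D : CurvePt k F →₀ ℤ, (n : ℤ) = deg D + 1 - ell D}

/-- `W` is a canonical divisor: `deg W = 2g - 2` and `l(W) = g`. -/
def IsCanonical (W : CurvePt k F →₀ ℤ) : Prop :=
  deg W = 2 * genus k F - 2 ∧ ell W = genus k F

/-- coordinates of `x ∧ y` -/
def wedge (x y : Fin 2 → F) : F := x 0 * y 1 - x 1 * y 0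

/-- The determinant of `E` is isomorphic to `O(W)`: there is an `F`-linear isomorphism of generic
fibres, `x ∧ y ↦ c (x₀ y₁ - x₁ y₀)`, which maps the stalk of `det E` onto the stalk of `O(W)` at
every point. -/
def Bundle.DetIso (E : Bundle k F) (W : CurvePt k F →₀ ℤ) : Prop :=
  ∃ c : F, c ≠ 0 ∧ ∀ (P : CurvePt k F) (f : F),
    (∃ x ∈ E.stalk P, ∃ y ∈ E.stalk P, f = c * wedge x y) ↔ MemO (W P) P f

/-- For a nonzero rational section `s`, the line subbundle of `E` generated by `s` (generic fibre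
`F s`, stalks `E_P ∩ F s`) is `O(D)`, trivialised by `s`, where `D(P)` is the greatest pole order
allowed to `f` at `P` if `f s` is to be in `E_P`. -/
noncomputable def Bundle.lineOrd (E : Bundle k F) (P : CurvePt k F) (s : Fin 2 → F) : ℤ :=
  sSup {n : ℤ | ∃ f : F, f ≠ 0 ∧ f • s ∈ E.stalk P ∧ n = - P.ord f}

/-- The degree of the line subbundle of `E` generated by `s`. -/
noncomputable def Bundle.lineDeg (E : Bundle k F) (s : Fin 2 → F) : ℤ :=
  ∑ᶠ P : CurvePt k F, E.lineOrd P s

/-- `H` is a space of global sections of `E`. -/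
def Bundle.IsSections (E : Bundle k F) (H : Submodule k (Fin 2 → F)) : Prop :=
  ∀ x ∈ H, ∀ P : CurvePt k F, x ∈ E.stalk P

/-- The coherent system `(E, H)`, where `E` has degree `d`, is `α`-stable: `μ_α` of every proper
subsystem `(L, U)`, `L` a line subbundle, or `(E, U)`, is smaller than `μ_α(E, H)`. -/
def AlphaStable (d : ℤ) (α : ℝ) (E : Bundle k F) (H : Submodule k (Fin 2 → F)) : Prop :=
  (∀ s : Fin 2 → F, s ≠ 0 → ∀ U : Submodule k (Fin 2 → F), U ≤ H →
    (∀ x ∈ U, ∃ f : F, x = f • s) →
    (E.lineDeg s : ℝ) + α * finrank k U < ((d : ℝ) + α * finrank k H) / 2) ∧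
  (∀ U : Submodule k (Fin 2 → F), U < H →
    ((d : ℝ) + α * finrank k U) / 2 < ((d : ℝ) + α * finrank k H) / 2)

/-- `(E, H)` is a point of `G(α; 2, K, n)`, `K = O(W)`. -/
def InG (W : CurvePt k F →₀ ℤ) (n : ℕ) (α : ℝ) (E : Bundle k F)
    (H : Submodule k (Fin 2 → F)) : Prop :=
  E.DetIso W ∧ E.IsSections H ∧ finrank k H = n ∧ AlphaStable (deg W) α E H

/-- `G(α; 2, K, n)` is not empty, `K = O(W)`. -/
def GNonempty (W : CurvePt k F →₀ ℤ) (n : ℕ) (α : ℝ) : Prop :=
  ∃ (E : Bundle k F) (H : Submodule k (Fin 2 → F)), InG W n α E H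

/-- `G_0(2, K, n)` is not empty, `K = O(W)`: some `(E, H)` is in `G(α; 2, K, n)` for all
sufficiently small `α > 0`. -/
def GZeroNonempty (W : CurvePt k F →₀ ℤ) (n : ℕ) : Prop :=
  ∃ (E : Bundle k F) (H : Submodule k (Fin 2 → F)), ∃ ε > (0 : ℝ), ∀ α : ℝ, 0 < α → α < ε →
    InG W n α E H

/-- `β(2, K, n) = 3g - 3 - n(n+1)/2` -/
def beta (g n : ℕ) : ℤ := 3 * g - 3 - (n * (n + 1) / 2 : ℕ)

end Pool.Agent.Helper33.CoherentSystemsA
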