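import Pool.Agent.Helper33.CS.Slim
import Pool.Agent.Helper33.CS.SlimDefs

/-! The definitions of `SlimDefs` agree with those of the helper files. -/

open Module Pool.Agent.Helper11

namespace Pool.Agent.Helper33.CoherentSystems

universe u

variable {k F : Type u} [Field k] [Field F] [Algebra k F]

theorem ell_eq (D : CurvePt k F →₀ ℤ) : ell D = Pool.Agent.Helper24.Coh.ell D := by
  have h : Submodule.span k {f : F | ∀ P : CurvePt k F, MemO (D P) P f} =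
      Pool.Agent.Helper24.Coh.rrSpace D := Submodule.span_eq (Pool.Agent.Helper24.Coh.rrSpace D)
  unfold ell Set.finrank Pool.Agent.Helper24.Coh.ell
  rw [h]

theorem genus_eq (k F : Type u) [Field k] [Field F] [Algebra k F] :
    genus k F = Pool.Agent.Helper24.Coh.genus k F := by
  unfold genus Pool.Agent.Helper24.Coh.genus
  simp only [ell_eq]
  rfl

def toB (E : Bundle k F) : Pool.Agent.Helper24.Coh.Bundle k F :=
  ⟨E.stalk, E.loc_free, E.generic⟩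

def ofB (E : Pool.Agent.Helper24.Coh.Bundle k F) : Bundle k F :=
  ⟨E.stalk, E.loc_free, E.generic⟩

theorem inG_iff (W : CurvePt k F →₀ ℤ) (n : ℕ) (α : ℝ) (E : Bundle k F)
    (H : Submodule k (Fin 2 → F)) : InG W n α E H ↔ Pool.Agent.Helper24.Coh.InG W n α (toB E) H :=
  ⟨fun h => ⟨h.1, h.2.1, h.2.2.1, h.2.2.2⟩, fun h => ⟨h.1, h.2, h.3, h.4⟩⟩

theorem gNonempty_iff (W : CurvePt k F →₀ ℤ) (n : ℕ) (α : ℝ) :
    GNonempty W n α ↔ Pool.Agent.Helper24.Coh.GNonempty W n α :=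
  ⟨fun ⟨E, H, h⟩ => ⟨toB E, H, (inG_iff W n α E H).1 h⟩,
    fun ⟨E, H, h⟩ => ⟨ofB E, H, (inG_iff W n α (ofB E) H).2 h⟩⟩

theorem bNonempty_iff (W : CurvePt k F →₀ ℤ) (n : ℕ) :
    BNonempty W n ↔ Pool.Agent.Helper33.CS.BNonempty W n :=
  ⟨fun ⟨E, H, h⟩ => ⟨toB E, H, h⟩, fun ⟨E, H, h⟩ => ⟨ofB E, H, h⟩⟩

theorem uNonempty_iff (W : CurvePt k F →₀ ℤ) (n : ℕ) :
    UNonempty W n ↔ Pool.Agent.Helper33.CS.UNonempty W n :=
  ⟨fun ⟨E, H, hs, α₀, h⟩ => ⟨toB E, H, hs, α₀, fun α hα => (inG_iff W n α E H).1 (h α hα)⟩,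
    fun ⟨E, H, hs, α₀, h⟩ => ⟨ofB E, H, hs, α₀, fun α hα => (inG_iff W n α (ofB E) H).2 (h α hα)⟩⟩

theorem main (k F : Type u) [Field k] [IsAlgClosed k] [CharZero k] [Field F] [Algebra k F]
    (hF : IsCurveField k F) (hC : NonHyp k F) (W : CurvePt k F →₀ ℤ) (hW : IsCanonical W) :
    (∀ n : ℕ, 2 ≤ n →
      (UNonempty W n ↔ BNonempty W n) ∧
      (UNonempty W n → ∃ (E : Bundle k F) (H : Submodule k (Fin 2 → F)), IsStable E (deg W) ∧
        ∀ α : ℝ, 0 < α → InG W n α E H) ∧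
      ((∀ θ : CurvePt k F →₀ ℤ, IsTheta W θ → 2 * ell θ ≤ n) →
        ((∃ α : ℝ, 0 < α ∧ GNonempty W n α) ↔ UNonempty W n)) ∧
      (∀ N : CurvePt k F →₀ ℤ, 2 * deg N ≤ deg W → n < 2 * ell N → ¬ IsTheta W N →
        UNonempty W n)) ∧
    ((∀ θ : CurvePt k F →₀ ℤ, IsTheta W θ → ell θ ≤ 1) →
      ((∀ n : ℕ, 2 ≤ n →
          (beta (genus k F) n < 0 → ∀ α : ℝ, 0 < α → ¬ GNonempty W n α) ∧
          (0 ≤ beta (genus k F) n → UNonempty W n)) ↔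
        ∀ n : ℕ, 2 ≤ n → (BNonempty W n ↔ 0 ≤ beta (genus k F) n))) := by
  have hC' : Pool.Agent.Helper33.CS.NonHyp k F := fun D hD => by
    rw [← ell_eq]
    exact hC D hD
  have hW' : Pool.Agent.Helper24.Coh.IsCanonical W := by
    have h1 := hW.1
    have h2 := hW.2
    rw [genus_eq] at h1 h2
    rw [ell_eq] at h2
    exact ⟨h1, h2⟩
  have h := Pool.Agent.Helper33.CS.Slim.main k F hF hC' W hW'
  simp only [IsTheta, ell_eq, genus_eq, uNonempty_iff, bNonempty_iff, gNonempty_iff]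
  refine ⟨fun n hn => ?_, fun hθ => h.2 hθ⟩
  obtain ⟨h1, h2, h3, h4⟩ := h.1 n hn
  refine ⟨h1, fun hU => ?_, h3, h4⟩
  obtain ⟨E, H, hs, hE⟩ := h2 hU
  exact ⟨ofB E, H, hs, fun α hα => (inG_iff W n α (ofB E) H).2 (hE α hα)⟩

end Pool.Agent.Helper33.CoherentSystems
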