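import Pool.Agent.Helper24.Coh.Genus
import Pool.Agent.Helper24.Coh.MainAny
import Pool.Agent.Helper33.CS.SlimDefsA

/-! The definitions of `SlimDefsA` agree with those of the helper files. -/

open Module Pool.Agent.Helper11

namespace Pool.Agent.Helper33.CoherentSystemsA

universe u

variable {k F : Type u} [Field k] [Field F] [Algebra k F]

theorem ell_eq (D : CurvePt k F →₀ ℤ) : ell D = Pool.Agent.Helper24.Coh.ell D := by
  have h : Submodule.span k {f : F | ∀ P : CurvePt k F, MemO (D P) P f} =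
      Pool.Agent.Helper24.Coh.rrSpace D := Submodule.span_eq (Pool.Agent.Helper24.Coh.rrSpace D)
  unfold ell Set.finrank Pool.Agent.Helper24.Coh.ell
  rw [h]

theorem genus_eq (k F : Type u) [Field k] [Field F] [Algebra k F] :
    genus k F = Pool.Agent.Helper24.Coh.genus k F := by
  unfold genus Pool.Agent.Helper24.Coh.genus
  simp only [ell_eq]
  rfl

def toB (E : Bundle k F) : Pool.Agent.Helper24.Coh.Bundle k F :=
  ⟨E.stalk, E.loc_free, E.generic⟩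

def ofB (E : Pool.Agent.Helper24.Coh.Bundle k F) : Bundle k F :=
  ⟨E.stalk, E.loc_free, E.generic⟩

theorem inG_iff (W : CurvePt k F →₀ ℤ) (n : ℕ) (α : ℝ) (E : Bundle k F)
    (H : Submodule k (Fin 2 → F)) : InG W n α E H ↔ Pool.Agent.Helper24.Coh.InG W n α (toB E) H :=
  ⟨fun h => ⟨h.1, h.2.1, h.2.2.1, h.2.2.2⟩, fun h => ⟨h.1, h.2, h.3, h.4⟩⟩

theorem gNonempty_iff (W : CurvePt k F →₀ ℤ) (n : ℕ) (α : ℝ) :
    GNonempty W n α ↔ Pool.Agent.Helper24.Coh.GNonempty W n α :=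
  ⟨fun ⟨E, H, h⟩ => ⟨toB E, H, (inG_iff W n α E H).1 h⟩,
    fun ⟨E, H, h⟩ => ⟨ofB E, H, (inG_iff W n α (ofB E) H).2 h⟩⟩

theorem gZeroNonempty_iff (W : CurvePt k F →₀ ℤ) (n : ℕ) :
    GZeroNonempty W n ↔ Pool.Agent.Helper24.Coh.GZeroNonempty W n :=
  ⟨fun ⟨E, H, ε, hε, h⟩ => ⟨toB E, H, ε, hε, fun α h1 h2 => (inG_iff W n α E H).1 (h α h1 h2)⟩,
    fun ⟨E, H, ε, hε, h⟩ =>
      ⟨ofB E, H, ε, hε, fun α h1 h2 => (inG_iff W n α (ofB E) H).2 (h α h1 h2)⟩⟩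

theorem main (k F : Type u) [Field k] [IsAlgClosed k] [CharZero k] [Field F] [Algebra k F]
    (hF : IsCurveField k F) (hg : 2 ≤ genus k F) (W : CurvePt k F →₀ ℤ) (hW : IsCanonical W) :
    (∀ n : ℕ, beta (genus k F) n < 0 → 3 ≤ n) ∧
    ∀ n : ℕ, 3 ≤ n → ((∃ α : ℝ, 0 < α ∧ GNonempty W n α) ↔ GZeroNonempty W n) := by
  have hW' : Pool.Agent.Helper24.Coh.IsCanonical W := by
    have h1 := hW.1
    have h2 := hW.2
    rw [genus_eq] at h1 h2
    rw [ell_eq] at h2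
    exact ⟨h1, h2⟩
  rw [genus_eq] at hg
  simp only [genus_eq, gNonempty_iff, gZeroNonempty_iff]
  refine ⟨fun n hn => Pool.Agent.Helper24.Coh.three_le_of_beta_neg hg hn, fun n hn => ⟨?_, ?_⟩⟩
  · rintro ⟨α, hα, h⟩
    exact Pool.Agent.Helper24.Coh.gZero_of_gNonempty hF hg
      (Pool.Agent.Helper24.Coh.isGenusCanonical hF hW') hn hα h
  · rintro ⟨E, H, ε, hε, hEH⟩
    exact ⟨ε / 2, by positivity, E, H, hEH (ε / 2) (by positivity) (by linarith)⟩

end Pool.Agent.Helper33.CoherentSystemsA
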